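import Pool.Agent.TH392.UC.Three
set_option autoImplicit false

namespace Pool.Agent.X73.UCP
open Finset
open Pool.Agent.TH392.UC

/-- no element lies in more than half of the members -/
def Half (A : Finset (Finset ℕ)) : Prop := ∀ x, 2 * deg A x ≤ A.card

/-- any two elements of the union are separated -/
def Sep (A : Finset (Finset ℕ)) : Prop :=
  ∀ x ∈ A.sup id, ∀ y ∈ A.sup id, x ≠ y → ∃ S ∈ A, ¬ (x ∈ S ↔ y ∈ S)

theorem mem_sup_id {A : Finset (Finset ℕ)} {x : ℕ} : x ∈ A.sup id ↔ ∃ S ∈ A, x ∈ S := by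
  rw [mem_sup]
  rfl

theorem weightH {A : Finset (Finset ℕ)} (h : Half A) {I : Type*} (t : Finset I)
    (m : I → Finset ℕ) (u : I → ℤ) (hu : ∀ i ∈ t, 0 ≤ u i) :
    ∑ S ∈ A, ∑ i ∈ t, u i * (2 * ((S ∩ m i).card : ℤ) - ((m i).card : ℤ)) ≤ 0 := by
  have h3 : ∀ i, ∑ S ∈ A, (2 * ((S ∩ m i).card : ℤ) - ((m i).card : ℤ)) ≤ 0 := by
    intro i
    have h4 : ∑ S ∈ A, (S ∩ m i).card = ∑ x ∈ m i, deg A x := by
      have : ∀ S ∈ A, (S ∩ m i).card = ∑ x ∈ m i, if x ∈ S then 1 else 0 := by
        intro S _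
        rw [← card_filter]
        congr 1
        ext x
        simp [and_comm]
      rw [sum_congr rfl this, sum_comm]
      apply sum_congr rfl
      intro x _
      rw [← card_filter, deg]
    have h5 : ∑ x ∈ m i, 2 * deg A x ≤ (m i).card * A.card := by
      calc ∑ x ∈ m i, 2 * deg A x ≤ ∑ x ∈ m i, A.card := sum_le_sum (fun x _ => h x)
        _ = _ := by rw [sum_const, smul_eq_mul]
    rw [← mul_sum, ← h4] at h5
    rw [sum_sub_distrib, ← mul_sum, sum_const, nsmul_eq_mul]
    have h6 : ((2 * ∑ S ∈ A, (S ∩ m i).card : ℕ) : ℤ) ≤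
        (((m i).card * A.card : ℕ) : ℤ) := by exact_mod_cast h5
    push_cast at h6
    push_cast
    linarith [h6]
  rw [sum_comm]
  apply sum_nonpos
  intro i hi
  rw [← mul_sum]
  exact mul_nonpos_of_nonneg_of_nonpos (hu i hi) (h3 i)

theorem weightE {A : Finset (Finset ℕ)} (h : Half A) {I : Type*} (t : Finset I)
    (m : I → Finset ℕ) (u : I → ℤ) (hu : ∀ i ∈ t, 0 ≤ u i) :
    ∑ S ∈ A.erase ∅, ∑ i ∈ t, u i * (2 * ((S ∩ m i).card : ℤ) - ((m i).card : ℤ)) ≤
      ∑ i ∈ t, u i * ((m i).card : ℤ) := by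
  have h1 := weightH h t m u hu
  by_cases h0 : (∅ : Finset ℕ) ∈ A
  · rw [← add_sum_erase _ _ h0] at h1
    have h2 : ∑ i ∈ t, u i * (2 * (((∅ : Finset ℕ) ∩ m i).card : ℤ) - ((m i).card : ℤ)) =
        - ∑ i ∈ t, u i * ((m i).card : ℤ) := by
      rw [← sum_neg_distrib]
      apply sum_congr rfl
      intro i _
      rw [empty_inter, card_empty]
      push_cast
      ring
    rw [h2] at h1
    linarith
  · rw [erase_eq_of_notMem h0]
    exact h1.trans (sum_nonneg fun i hi => mul_nonneg (hu i hi) (Int.natCast_nonneg _))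

theorem split4 (A : Finset (Finset ℕ)) (x y : ℕ) :
    deg A x = (A.filter (fun S => x ∈ S ∧ y ∉ S)).card + (A.filter (fun S => x ∈ S ∧ y ∈ S)).card ∧
    deg A y = (A.filter (fun S => x ∉ S ∧ y ∈ S)).card + (A.filter (fun S => x ∈ S ∧ y ∈ S)).card ∧
    A.card = (A.filter (fun S => x ∉ S ∧ y ∉ S)).card + (A.filter (fun S => x ∈ S ∧ y ∉ S)).card +
      (A.filter (fun S => x ∉ S ∧ y ∈ S)).card + (A.filter (fun S => x ∈ S ∧ y ∈ S)).card := by
  have h1 := card_filter_add_card_filter_not (s := A.filter (fun S => x ∈ S)) (fun S => y ∈ S)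
  have h2 := card_filter_add_card_filter_not (s := A.filter (fun S => y ∈ S)) (fun S => x ∈ S)
  have h3 := card_filter_add_card_filter_not (s := A.filter (fun S => x ∉ S)) (fun S => y ∈ S)
  have h4 := card_filter_add_card_filter_not (s := A) (fun S => x ∈ S)
  rw [filter_filter, filter_filter] at h1 h2 h3
  have e : A.filter (fun S => y ∈ S ∧ x ∈ S) = A.filter (fun S => x ∈ S ∧ y ∈ S) :=
    filter_congr (fun S _ => and_comm)
  have e' : A.filter (fun S => y ∈ S ∧ x ∉ S) = A.filter (fun S => x ∉ S ∧ y ∈ S) :=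
    filter_congr (fun S _ => and_comm)
  rw [e, e'] at h2
  unfold deg
  omega

/-- a member with at most two elements is tight -/
theorem pair_tight {A : Finset (Finset ℕ)} (hU : UnionClosed A) (h : Half A) {x y : ℕ}
    (hm : {x, y} ∈ A) :
    (∀ S ∈ A, x ∈ S → y ∈ S → S \ {x, y} ∈ A) ∧
    (A.filter (fun S => x ∈ S ∧ y ∉ S)).card = (A.filter (fun S => x ∉ S ∧ y ∈ S)).card := by
  obtain ⟨h1, h2, h3⟩ := split4 A x y
  have hx := h x
  have hy := h y
  have hinj : Set.InjOn (fun S : Finset ℕ => S ∪ {x, y})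
      (A.filter (fun S => x ∉ S ∧ y ∉ S)) := by
    intro S hS T hT hST
    rw [mem_coe, mem_filter] at hS hT
    change S ∪ {x, y} = T ∪ {x, y} at hST
    ext z
    have := Finset.ext_iff.1 hST z
    simp only [mem_union, mem_insert, mem_singleton] at this
    constructor
    · intro hz
      rcases this.1 (Or.inl hz) with h | h | h
      · exact h
      · subst h; exact absurd hz hS.2.1
      · subst h; exact absurd hz hS.2.2
    · intro hz
      rcases this.2 (Or.inl hz) with h | h | h
      · exact h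
      · subst h; exact absurd hz hT.2.1
      · subst h; exact absurd hz hT.2.2
  have hsub : (A.filter (fun S => x ∉ S ∧ y ∉ S)).image (fun S : Finset ℕ => S ∪ {x, y}) ⊆
      A.filter (fun S => x ∈ S ∧ y ∈ S) := by
    intro T hT
    rw [mem_image] at hT
    obtain ⟨S, hS, rfl⟩ := hT
    rw [mem_filter] at hS ⊢
    exact ⟨hU _ hS.1 _ hm, by simp, by simp⟩
  have hcard := card_image_of_injOn hinj
  have hle := card_le_card hsub
  rw [hcard] at hle
  have heq : (A.filter (fun S => x ∉ S ∧ y ∉ S)).image (fun S : Finset ℕ => S ∪ {x, y}) =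
      A.filter (fun S => x ∈ S ∧ y ∈ S) := by
    apply eq_of_subset_of_card_le hsub
    rw [hcard]
    omega
  refine ⟨?_, by omega⟩
  intro S hS hxS hyS
  have hS' : S ∈ (A.filter (fun S => x ∉ S ∧ y ∉ S)).image (fun S : Finset ℕ => S ∪ {x, y}) := by
    rw [heq, mem_filter]
    exact ⟨hS, hxS, hyS⟩
  rw [mem_image] at hS'
  obtain ⟨T, hT, rfl⟩ := hS'
  rw [mem_filter] at hT
  have : (T ∪ {x, y}) \ {x, y} = T := by
    rw [union_sdiff_right]
    apply sdiff_eq_self_of_disjoint
    rw [disjoint_right]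
    intro z hz
    rw [mem_insert, mem_singleton] at hz
    rcases hz with rfl | rfl
    · exact hT.2.1
    · exact hT.2.2
  rw [this]
  exact hT.1

theorem single_tight {A : Finset (Finset ℕ)} (hU : UnionClosed A) (h : Half A) {x : ℕ}
    (hm : {x} ∈ A) : ∀ S ∈ A, S.erase x ∈ A := by
  intro S hS
  by_cases hx : x ∈ S
  · have h1 := (pair_tight hU h (x := x) (y := x) (by simpa using hm)).1 S hS hx hx
    have e : S \ {x, x} = S.erase x := by
      ext z
      simp [and_comm]
    rwa [e] at h1
  · rwa [erase_eq_of_notMem hx]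

/-- peeling off a singleton -/
theorem single_peel {A : Finset (Finset ℕ)} (hU : UnionClosed A) (h : Half A) (hsep : Sep A)
    {x : ℕ} (hm : {x} ∈ A) :
    UnionClosed (A.filter (fun S => x ∉ S)) ∧ Half (A.filter (fun S => x ∉ S)) ∧
    Sep (A.filter (fun S => x ∉ S)) ∧ (A.filter (fun S => x ∉ S)).Nonempty ∧
    (A.filter (fun S => x ∉ S) = ((A.filter (fun S => x ∉ S)).sup id).powerset →
      A = (A.sup id).powerset) := by
  have ht := single_tight hU h hm
  have hbij : ∀ P : Finset ℕ → Prop, ∀ _ : DecidablePred P, (∀ S, P S ↔ P (S.erase x)) →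
      ((A.filter (fun S => x ∈ S)).filter P).card = ((A.filter (fun S => x ∉ S)).filter P).card := by
    intro P _ hP
    refine card_bij' (fun S _ => S.erase x) (fun S _ => insert x S) ?_ ?_ ?_ ?_
    · intro S hS
      simp only [mem_filter] at hS ⊢
      exact ⟨⟨ht S hS.1.1, notMem_erase x S⟩, (hP S).1 hS.2⟩
    · intro S hS
      simp only [mem_filter] at hS ⊢
      refine ⟨⟨?_, mem_insert_self x S⟩, ?_⟩
      · have : insert x S = S ∪ {x} := by
          ext z; simp only [mem_insert, mem_union, mem_singleton]; tauto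
        rw [this]
        exact hU _ hS.1.1 _ hm
      · rw [hP, erase_insert hS.1.2]
        exact hS.2
    · intro S hS
      simp only [mem_filter] at hS
      exact insert_erase hS.1.2
    · intro S hS
      simp only [mem_filter] at hS
      exact erase_insert hS.1.2
  have hcard : A.card = 2 * (A.filter (fun S => x ∉ S)).card := by
    have h1 := hbij (fun _ => True) inferInstance (fun _ => Iff.rfl)
    simp only [filter_true] at h1
    have h2 := card_filter_add_card_filter_not (s := A) (fun S => x ∈ S)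
    omega
  refine ⟨?_, ?_, ?_, ?_, ?_⟩
  · intro S hS T hT
    rw [mem_filter] at hS hT ⊢
    refine ⟨hU _ hS.1 _ hT.1, ?_⟩
    rw [mem_union]
    tauto
  · intro y
    by_cases hyx : y = x
    · subst hyx
      have : deg (A.filter (fun S => y ∉ S)) y = 0 := by
        unfold deg
        rw [card_eq_zero, filter_filter, filter_eq_empty_iff]
        intro S _
        tauto
      rw [this]
      omega
    · have h1 := hbij (fun S => y ∈ S) inferInstance (fun S => by simp [hyx])
      have h2 : deg A y = 2 * deg (A.filter (fun S => x ∉ S)) y := by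
        unfold deg
        have h3 := card_filter_add_card_filter_not (s := A.filter (fun S => y ∈ S)) (fun S => x ∈ S)
        rw [filter_comm, h1, filter_comm (fun S => y ∈ S) (fun S => x ∉ S)] at h3
        omega
      have := h y
      omega
  · intro y hy z hz hyz
    rw [mem_sup_id] at hy hz
    obtain ⟨Sy, hSy, hy⟩ := hy
    obtain ⟨Sz, hSz, hz⟩ := hz
    rw [mem_filter] at hSy hSz
    have hyx : y ≠ x := by rintro rfl; exact hSy.2 hy
    have hzx : z ≠ x := by rintro rfl; exact hSz.2 hz
    obtain ⟨S, hS, hne⟩ := hsep y (mem_sup_id.2 ⟨Sy, hSy.1, hy⟩) z (mem_sup_id.2 ⟨Sz, hSz.1, hz⟩) hyz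
    refine ⟨S.erase x, mem_filter.2 ⟨ht S hS, notMem_erase x S⟩, ?_⟩
    simpa [hyx, hzx] using hne
  · rw [← card_pos]
    have : 0 < A.card := card_pos.2 ⟨_, hm⟩
    omega
  · intro hB
    ext S
    rw [mem_powerset]
    constructor
    · intro hS z hz
      exact mem_sup_id.2 ⟨S, hS, hz⟩
    · intro hS
      have h1 : S.erase x ∈ A.filter (fun S => x ∉ S) := by
        rw [hB, mem_powerset]
        intro z hz
        rw [mem_erase] at hz
        obtain ⟨T, hT, hzT⟩ := mem_sup_id.1 (hS hz.2)
        exact mem_sup_id.2 ⟨T.erase x, mem_filter.2 ⟨ht T hT, notMem_erase x T⟩,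
          mem_erase.2 ⟨hz.1, hzT⟩⟩
      rw [mem_filter] at h1
      by_cases hx : x ∈ S
      · have : S = S.erase x ∪ {x} := by
          ext z
          simp only [mem_union, mem_erase, mem_singleton]
          constructor
          · intro hz
            by_cases hzx : z = x
            · exact Or.inr hzx
            · exact Or.inl ⟨hzx, hz⟩
          · rintro (hz | rfl)
            · exact hz.2
            · exact hx
        rw [this]
        exact hU _ h1.1 _ hm
      · rw [erase_eq_of_notMem hx] at h1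
        exact h1.1

/-- reduction to families without singletons -/
theorem peel_all (Q : Finset (Finset ℕ) → Prop)
    (hher : ∀ A x, {x} ∈ A → Q A → Q (A.filter (fun S => x ∉ S)))
    (hbase : ∀ A, UnionClosed A → Half A → Sep A → A.Nonempty → Q A → (∀ x, {x} ∉ A) → A = {∅}) :
    ∀ (n : ℕ) (A : Finset (Finset ℕ)), A.card = n → UnionClosed A → Half A → Sep A →
      A.Nonempty → Q A → A = (A.sup id).powerset := by
  intro n
  induction n using Nat.strong_induction_on with
  | _ n ih =>
    intro A hn hU h hsep hne hQ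
    by_cases hs : ∃ x, {x} ∈ A
    · obtain ⟨x, hx⟩ := hs
      obtain ⟨h1, h2, h3, h4, h5⟩ := single_peel hU h hsep hx
      apply h5
      refine ih _ ?_ _ rfl h1 h2 h3 h4 (hher A x hx hQ)
      rw [← hn]
      apply card_lt_card
      rw [ssubset_iff_of_subset (filter_subset _ _)]
      exact ⟨{x}, hx, by simp⟩
    · push Not at hs
      have := hbase A hU h hsep hne hQ hs
      rw [this]
      rfl

/-- one point meeting every nonempty member -/
theorem one_point {A : Finset (Finset ℕ)} (h : Half A) (hsep : Sep A) (hne : A.Nonempty)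
    (hs : ∀ x, {x} ∉ A) (y : ℕ) (hy : ∀ S ∈ A, S.Nonempty → y ∈ S) : A = {∅} := by
  by_contra hcon
  have h1 : A.filter (fun S => y ∈ S) = A.erase ∅ := by
    ext S
    rw [mem_filter, mem_erase]
    constructor
    · rintro ⟨h1, h2⟩
      refine ⟨?_, h1⟩
      rintro rfl
      simp at h2
    · rintro ⟨h1, h2⟩
      exact ⟨h2, hy S h2 (nonempty_iff_ne_empty.2 h1)⟩
  have h2 := h y
  unfold deg at h2
  rw [h1] at h2
  have hpos : 0 < A.card := card_pos.2 hne
  by_cases h0 : (∅ : Finset ℕ) ∈ A
  swap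
  · rw [erase_eq_of_notMem h0] at h2
    omega
  rw [card_erase_of_mem h0] at h2
  have h3 : (A.erase ∅).card ≤ 1 := by
    rw [card_erase_of_mem h0]
    omega
  have h4 : (A.erase ∅).Nonempty := by
    by_contra h4
    rw [not_nonempty_iff_eq_empty, erase_eq_empty_iff] at h4
    rcases h4 with h4 | h4
    · rw [h4] at hpos
      simp at hpos
    · exact hcon h4
  obtain ⟨S, hS⟩ := h4
  have hS' := hS
  rw [mem_erase] at hS'
  have hyS := hy S hS'.2 (nonempty_iff_ne_empty.2 hS'.1)
  have h5 : S = {y} := by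
    ext z
    rw [mem_singleton]
    constructor
    · intro hz
      by_contra hzy
      obtain ⟨T, hT, hT'⟩ := hsep z (mem_sup_id.2 ⟨S, hS'.2, hz⟩) y
        (mem_sup_id.2 ⟨S, hS'.2, hyS⟩) hzy
      by_cases hT0 : T = ∅
      · subst hT0
        simp at hT'
      · have : T = S := card_le_one.1 h3 T (mem_erase.2 ⟨hT0, hT⟩) S hS
        subst this
        tauto
    · rintro rfl
      exact hyS
  exact hs y (h5 ▸ hS'.2)

/-- two points meeting every nonempty member -/
theorem two_points {A : Finset (Finset ℕ)} (hU : UnionClosed A) (h : Half A) (hsep : Sep A)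
    (hne : A.Nonempty) (hs : ∀ x, {x} ∉ A) (x y : ℕ)
    (hxy : ∀ S ∈ A, S.Nonempty → x ∈ S ∨ y ∈ S) : A = {∅} := by
  by_contra hcon
  by_cases hx1 : ∀ S ∈ A, S.Nonempty → x ∈ S
  · exact hcon (one_point h hsep hne hs x hx1)
  by_cases hy1 : ∀ S ∈ A, S.Nonempty → y ∈ S
  · exact hcon (one_point h hsep hne hs y hy1)
  push Not at hx1 hy1
  obtain ⟨T0, hT0, hT0ne, hxT0⟩ := hx1
  obtain ⟨S0, hS0, hS0ne, hyS0⟩ := hy1
  have hyT0 : y ∈ T0 := (hxy T0 hT0 hT0ne).resolve_left hxT0
  have hxS0 : x ∈ S0 := (hxy S0 hS0 hS0ne).resolve_right hyS0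
  obtain ⟨h1, h2, h3⟩ := split4 A x y
  have hx := h x
  have hy := h y
  have hnn : (A.filter (fun S => x ∉ S ∧ y ∉ S)).card ≤ 1 := by
    rw [card_le_one]
    have : ∀ S ∈ A.filter (fun S => x ∉ S ∧ y ∉ S), S = ∅ := by
      intro S hS
      rw [mem_filter] at hS
      by_contra h0
      rcases hxy S hS.1 (nonempty_iff_ne_empty.2 h0) with h | h
      · exact hS.2.1 h
      · exact hS.2.2 h
    intro S hS T hT
    rw [this S hS, this T hT]
  have hUm : S0 ∪ T0 ∈ A.filter (fun S => x ∈ S ∧ y ∈ S) :=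
    mem_filter.2 ⟨hU _ hS0 _ hT0, mem_union_left _ hxS0, mem_union_right _ hyT0⟩
  have hbb : 0 < (A.filter (fun S => x ∈ S ∧ y ∈ S)).card := card_pos.2 ⟨_, hUm⟩
  have hbb1 : (A.filter (fun S => x ∈ S ∧ y ∈ S)).card = 1 := by omega
  have huniq : ∀ S ∈ A, x ∈ S → y ∈ S → S = S0 ∪ T0 := by
    intro S hS hxS hyS
    exact card_le_one.1 hbb1.le S (mem_filter.2 ⟨hS, hxS, hyS⟩) _ hUm
  have hcr : ∀ S ∈ A, ∀ T ∈ A, x ∈ S → y ∈ T → S ∪ T = S0 ∪ T0 := by
    intro S hS T hT hxS hyT
    exact huniq _ (hU _ hS _ hT) (mem_union_left _ hxS) (mem_union_right _ hyT)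
  have hU0 : S0 ∪ T0 ∈ A := hU _ hS0 _ hT0
  have key : ∀ z ∈ S0 ∪ T0, z = x ∨ z = y := by
    intro z hz
    by_contra hz'
    push Not at hz'
    by_cases hall : ∀ S ∈ A, x ∈ S → y ∉ S → z ∈ S
    · -- every x-only member contains z: z twin of x
      have hsub : insert (S0 ∪ T0) (A.filter (fun S => x ∈ S ∧ y ∉ S)) ⊆
          A.filter (fun S => z ∈ S) := by
        intro S hS
        rw [mem_insert] at hS
        rw [mem_filter]
        rcases hS with rfl | hS
        · exact ⟨hU0, hz⟩
        · rw [mem_filter] at hS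
          exact ⟨hS.1, hall S hS.1 hS.2.1 hS.2.2⟩
      have hni : S0 ∪ T0 ∉ A.filter (fun S => x ∈ S ∧ y ∉ S) := by
        rw [mem_filter]
        rintro ⟨_, _, h4⟩
        exact h4 (mem_union_right _ hyT0)
      have hc := card_insert_of_notMem hni
      have hzd := h z
      have heq : insert (S0 ∪ T0) (A.filter (fun S => x ∈ S ∧ y ∉ S)) =
          A.filter (fun S => z ∈ S) := by
        apply eq_of_subset_of_card_le hsub
        rw [hc]
        unfold deg at hzd
        omega
      obtain ⟨T, hT, hT'⟩ := hsep z (mem_sup_id.2 ⟨_, hU0, hz⟩) x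
        (mem_sup_id.2 ⟨_, hS0, hxS0⟩) hz'.1
      apply hT'
      constructor
      · intro hzT
        have : T ∈ A.filter (fun S => z ∈ S) := mem_filter.2 ⟨hT, hzT⟩
        rw [← heq, mem_insert, mem_filter] at this
        rcases this with rfl | this
        · exact mem_union_left _ hxS0
        · exact this.2.1
      · intro hxT
        by_cases hyT : y ∈ T
        · rw [huniq T hT hxT hyT]
          exact hz
        · exact hall T hT hxT hyT
    · push Not at hall
      obtain ⟨S1, hS1, hxS1, hyS1, hzS1⟩ := hall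
      have hally : ∀ T ∈ A, y ∈ T → x ∉ T → z ∈ T := by
        intro T hT hyT _
        have := hcr S1 hS1 T hT hxS1 hyT
        rw [← this, mem_union] at hz
        exact hz.resolve_left hzS1
      have hsub : insert (S0 ∪ T0) (A.filter (fun S => x ∉ S ∧ y ∈ S)) ⊆
          A.filter (fun S => z ∈ S) := by
        intro S hS
        rw [mem_insert] at hS
        rw [mem_filter]
        rcases hS with rfl | hS
        · exact ⟨hU0, hz⟩
        · rw [mem_filter] at hS
          exact ⟨hS.1, hally S hS.1 hS.2.2 hS.2.1⟩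
      have hni : S0 ∪ T0 ∉ A.filter (fun S => x ∉ S ∧ y ∈ S) := by
        rw [mem_filter]
        rintro ⟨_, h4, _⟩
        exact h4 (mem_union_left _ hxS0)
      have hc := card_insert_of_notMem hni
      have hzd := h z
      have heq : insert (S0 ∪ T0) (A.filter (fun S => x ∉ S ∧ y ∈ S)) =
          A.filter (fun S => z ∈ S) := by
        apply eq_of_subset_of_card_le hsub
        rw [hc]
        unfold deg at hzd
        omega
      obtain ⟨T, hT, hT'⟩ := hsep z (mem_sup_id.2 ⟨_, hU0, hz⟩) y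
        (mem_sup_id.2 ⟨_, hT0, hyT0⟩) hz'.2
      apply hT'
      constructor
      · intro hzT
        have : T ∈ A.filter (fun S => z ∈ S) := mem_filter.2 ⟨hT, hzT⟩
        rw [← heq, mem_insert, mem_filter] at this
        rcases this with rfl | this
        · exact mem_union_right _ hyT0
        · exact this.2.2
      · intro hyT
        by_cases hxT : x ∈ T
        · rw [huniq T hT hxT hyT]
          exact hz
        · exact hally T hT hyT hxT
  apply hs x
  have : S0 = {x} := by
    ext z
    rw [mem_singleton]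
    constructor
    · intro hz
      rcases key z (mem_union_left _ hz) with h | h
      · exact h
      · subst h
        exact absurd hz hyS0
    · rintro rfl
      exact hxS0
  rw [← this]
  exact hS0

/-- elements of a pair are twins if all minimal members have at most two elements -/
theorem pairs_twin {A : Finset (Finset ℕ)} (hU : UnionClosed A) (h : Half A)
    (hs : ∀ x, {x} ∉ A)
    (h2 : ∀ S ∈ A, S.Nonempty → ∃ m ∈ A, m.Nonempty ∧ m ⊆ S ∧ m.card ≤ 2) {x y : ℕ}
    (hxy : x ≠ y) (hm : {x, y} ∈ A) : ∀ (n : ℕ) (S : Finset ℕ), S.card = n → S ∈ A → x ∈ S → y ∈ S := by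
  intro n
  induction n using Nat.strong_induction_on with
  | _ n ih =>
    intro S hn hS hx
    obtain ⟨m, hmA, hmne, hmS, hmc⟩ := h2 S hS ⟨x, hx⟩
    have hc2 : m.card = 2 := by
      have h0 : 0 < m.card := card_pos.2 hmne
      have h1 : m.card ≠ 1 := by
        intro h1
        obtain ⟨z, rfl⟩ := card_eq_one.1 h1
        exact hs z hmA
      omega
    obtain ⟨u, v, huv, rfl⟩ := card_eq_two.1 hc2
    by_cases hxm : x ∈ ({u, v} : Finset ℕ)
    · -- m = {x, w}
      obtain ⟨w, hw, hwA, hwS⟩ : ∃ w, w ≠ x ∧ ({x, w} : Finset ℕ) ∈ A ∧ w ∈ S := by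
        rw [mem_insert, mem_singleton] at hxm
        rcases hxm with rfl | rfl
        · exact ⟨v, huv.symm, hmA, hmS (by simp)⟩
        · exact ⟨u, huv, by rw [pair_comm]; exact hmA, hmS (by simp)⟩
      by_cases hwy : w = y
      · rw [← hwy]; exact hwS
      · exfalso
        have h3 := hU _ hwA _ hm
        have h4 := (pair_tight hU h hm).1 _ h3 (by simp) (by simp)
        have : ({x, w} ∪ {x, y} : Finset ℕ) \ {x, y} = {w} := by
          ext z
          simp only [mem_sdiff, mem_union, mem_insert, mem_singleton]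
          constructor
          · tauto
          · rintro rfl
            tauto
        rw [this] at h4
        exact hs w h4
    · have hu : u ∈ S := hmS (by simp)
      have hv : v ∈ S := hmS (by simp)
      have h3 := (pair_tight hU h hmA).1 S hS hu hv
      have h4 : x ∈ S \ {u, v} := mem_sdiff.2 ⟨hx, hxm⟩
      have h5 : (S \ {u, v}).card < n := by
        rw [← hn]
        apply card_lt_card
        rw [ssubset_iff_of_subset sdiff_subset]
        exact ⟨u, hu, by simp⟩
      exact (mem_sdiff.1 (ih _ h5 _ rfl h3 h4)).1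

theorem pairs_case {A : Finset (Finset ℕ)} (hU : UnionClosed A) (h : Half A) (hsep : Sep A)
    (hne : A.Nonempty) (hs : ∀ x, {x} ∉ A)
    (h2 : ∀ S ∈ A, S.Nonempty → ∃ m ∈ A, m.Nonempty ∧ m ⊆ S ∧ m.card ≤ 2) : A = {∅} := by
  by_contra hcon
  have h0 : ∃ S ∈ A, S.Nonempty := by
    by_contra h0
    push Not at h0
    apply hcon
    ext S
    rw [mem_singleton]
    constructor
    · intro hS
      exact h0 S hS
    · rintro rfl
      obtain ⟨T, hT⟩ := hne
      rw [← h0 T hT]
      exact hT
  obtain ⟨S, hS, hSne⟩ := h0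
  obtain ⟨m, hmA, hmne, hmS, hmc⟩ := h2 S hS hSne
  have hc2 : m.card = 2 := by
    have h0 : 0 < m.card := card_pos.2 hmne
    have h1 : m.card ≠ 1 := by
      intro h1
      obtain ⟨z, rfl⟩ := card_eq_one.1 h1
      exact hs z hmA
    omega
  obtain ⟨x, y, hxy, rfl⟩ := card_eq_two.1 hc2
  obtain ⟨T, hT, hT'⟩ := hsep x (mem_sup_id.2 ⟨_, hmA, by simp⟩) y (mem_sup_id.2 ⟨_, hmA, by simp⟩) hxy
  apply hT'
  constructor
  · exact pairs_twin hU h hs h2 hxy hmA _ T rfl hT
  · exact pairs_twin hU h hs h2 hxy.symm (by rw [pair_comm]; exact hmA) _ T rfl hT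

end Pool.Agent.X73.UCP
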