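import Pool.Agent.X73.UCP.Three
set_option autoImplicit false

namespace Pool.Agent.X73.UCP
open Finset
open Pool.Agent.TH392.UC

/-- amounts for the case of a common point -/
def hh (e r : ℕ) : ℤ := if e = 1 then (if r ≤ 1 then 2 else 0) else (if r = 3 then 2 else 0)

theorem hh_nonneg (e r : ℕ) : 0 ≤ hh e r := by
  unfold hh
  split_ifs <;> norm_num

/-- the balance -/
def bal2 (e r d : ℕ) : ℤ :=
  4 * (e : ℤ) + 2 * ((r : ℤ) + d) - 8
    + ((if r = 0 then hh e d else 0) + (if d = 0 then hh e r else 0))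
    - ((if r = 3 then hh e d else 0) + (if d = 3 then hh e r else 0))

theorem bal2_fin : ∀ (e : Fin 2) (r d : Fin 4), (e.1 = 1 ∨ r.1 = 3 ∨ d.1 = 3) →
    0 ≤ bal2 e.1 r.1 d.1 := by
  decide +kernel

/-- two elements of a member of size three are separated by a member with one or two elements
in it -/
theorem sep_trace {A : Finset (Finset ℕ)} (hsep : Sep A) {R : Finset ℕ} (hR : R ∈ A)
    (cR : R.card = 3) {a b : ℕ} (ha : a ∈ R) (hb : b ∈ R) (hab : a ≠ b) :
    ∃ S ∈ A, ¬ (a ∈ S ↔ b ∈ S) ∧ ((S ∩ R).card = 1 ∨ (S ∩ R).card = 2) := by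
  obtain ⟨S, hS, hS'⟩ := hsep a (mem_sup_id.2 ⟨R, hR, ha⟩) b (mem_sup_id.2 ⟨R, hR, hb⟩) hab
  refine ⟨S, hS, hS', ?_⟩
  have h0 : 0 < (S ∩ R).card := by
    rw [card_pos]
    by_cases haS : a ∈ S
    · exact ⟨a, mem_inter.2 ⟨haS, ha⟩⟩
    · exact ⟨b, mem_inter.2 ⟨by tauto, hb⟩⟩
  have h3 : (S ∩ R).card < 3 := by
    rw [← cR]
    apply card_lt_card
    rw [Finset.ssubset_iff_subset_ne]
    refine ⟨inter_subset_right, fun he => hS' ?_⟩
    rw [inter_eq_right] at he
    exact ⟨fun _ => he hb, fun _ => he ha⟩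
  omega

theorem overlap_wit {A : Finset (Finset ℕ)} (hU : UnionClosed A) (hsep : Sep A) {R D : Finset ℕ}
    {x : ℕ} (hR : R ∈ A) (hD : D ∈ A) (cR : R.card = 3) (RD : Disjoint R D)
    (hmin : ∀ S ∈ A, S.Nonempty → x ∈ S ∨ R ⊆ S ∨ D ⊆ S) :
    ∃ Z ∈ A, D ⊆ Z ∧ ((Z ∩ R).card = 1 ∨ (Z ∩ R).card = 2) ∧ (x ∈ Z ∨ (Z ∩ R).card = 2) := by
  have hDR : ∀ S : Finset ℕ, (S ∪ D) ∩ R = S ∩ R := by
    intro S
    rw [union_inter_distrib_right, disjoint_iff_inter_eq_empty.1 RD.symm, union_empty]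
  -- dichotomy
  have dich : ∀ S ∈ A, ((S ∩ R).card = 1 ∨ (S ∩ R).card = 2) →
      (∃ Z ∈ A, D ⊆ Z ∧ ((Z ∩ R).card = 1 ∨ (Z ∩ R).card = 2) ∧ (x ∈ Z ∨ (Z ∩ R).card = 2)) ∨
      (D ⊆ S ∧ ∃ r, S ∩ R = {r}) := by
    intro S hS hc
    by_cases hx : x ∈ S
    · left
      refine ⟨S ∪ D, hU _ hS _ hD, subset_union_right, ?_, Or.inl (mem_union_left _ hx)⟩
      rw [hDR]
      exact hc
    · have hSne : S.Nonempty := by
        have h1 : 0 < (S ∩ R).card := by omega
        obtain ⟨z, hz⟩ := card_pos.1 h1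
        exact ⟨z, (mem_inter.1 hz).1⟩
      rcases hmin S hS hSne with h | h | h
      · exact absurd h hx
      · rw [sub_iff_card, cR] at h
        omega
      · rcases hc with hc | hc
        · exact Or.inr ⟨h, card_eq_one.1 hc⟩
        · exact Or.inl ⟨S, hS, h, Or.inr hc, Or.inr hc⟩
  obtain ⟨a, b, c, hab, hac, hbc, hRe⟩ := card_eq_three.1 cR
  have ha : a ∈ R := by rw [hRe]; simp
  have hb : b ∈ R := by rw [hRe]; simp
  obtain ⟨S1, hS1, _, hc1⟩ := sep_trace hsep hR cR ha hb hab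
  rcases dich S1 hS1 hc1 with h1 | ⟨hD1, r, hr⟩
  · exact h1
  have hrR : r ∈ R := by
    have : r ∈ S1 ∩ R := by rw [hr]; simp
    exact (mem_inter.1 this).2
  have hc : 1 < (R.erase r).card := by
    rw [card_erase_of_mem hrR, cR]
    norm_num
  obtain ⟨a', ha', b', hb', hab'⟩ := one_lt_card.1 hc
  rw [mem_erase] at ha' hb'
  obtain ⟨S2, hS2, hsep2, hc2⟩ := sep_trace hsep hR cR ha'.2 hb'.2 hab'
  rcases dich S2 hS2 hc2 with h1 | ⟨hD2, r', hr'⟩
  · exact h1
  have hrr : r' ≠ r := by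
    rintro rfl
    apply hsep2
    have e1 : a' ∉ S2 := by
      intro h
      have : a' ∈ S2 ∩ R := mem_inter.2 ⟨h, ha'.2⟩
      rw [hr', mem_singleton] at this
      exact ha'.1 this
    have e2 : b' ∉ S2 := by
      intro h
      have : b' ∈ S2 ∩ R := mem_inter.2 ⟨h, hb'.2⟩
      rw [hr', mem_singleton] at this
      exact hb'.1 this
    exact ⟨fun h => absurd h e1, fun h => absurd h e2⟩
  have hc12 : ((S1 ∪ S2) ∩ R).card = 2 := by
    rw [union_inter_distrib_right, hr, hr']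
    have : ({r} ∪ {r'} : Finset ℕ) = {r, r'} := by
      ext z; simp
    rw [this, card_pair hrr.symm]
  exact ⟨S1 ∪ S2, hU _ hS1 _ hS2, hD1.trans subset_union_left, Or.inr hc12, Or.inr hc12⟩

theorem overlap_strict {A : Finset (Finset ℕ)} (hU : UnionClosed A) (h : Half A) (hsep : Sep A)
    {X R D : Finset ℕ} {x : ℕ}
    (hX : X ∈ A) (hxX : x ∈ X) (hR : R ∈ A) (hD : D ∈ A)
    (cR : R.card = 3) (cD : D.card = 3) (xR : x ∉ R) (xD : x ∉ D) (RD : Disjoint R D)
    (hmin : ∀ S ∈ A, S.Nonempty → x ∈ S ∨ R ⊆ S ∨ D ⊆ S) : False := by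
  have hW := weightE h (univ : Finset (Fin 3)) ![{x}, R, D] ![2, 1, 1] (by
    intro i _
    fin_cases i
    · exact (by norm_num : (0 : ℤ) ≤ 2)
    · exact (by norm_num : (0 : ℤ) ≤ 1)
    · exact (by norm_num : (0 : ℤ) ≤ 1))
  have hrhs : ∑ i : Fin 3, (![2, 1, 1] : Fin 3 → ℤ) i * ((![{x}, R, D] i).card : ℤ) = 8 := by
    simp [Fin.sum_univ_three, cR, cD]
  have nR : R.Nonempty := card_pos.1 (by omega)
  have nD : D.Nonempty := card_pos.1 (by omega)
  have clR : Cl (A.erase ∅) R := cl_erase (fun S hS => hU S hS R hR) nR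
  have clD : Cl (A.erase ∅) D := cl_erase (fun S hS => hU S hS D hD) nD
  have Rx : Disjoint R {x} := disjoint_singleton_right.2 xR
  have Dx : Disjoint D {x} := disjoint_singleton_right.2 xD
  have fR := flow clR (fun S => hh (S ∩ {x}).card (S ∩ D).card) (fun _ => hh_nonneg _ _)
  have fD := flow clD (fun S => hh (S ∩ {x}).card (S ∩ R).card) (fun _ => hh_nonneg _ _)
  simp only [sdiff_inter_card Rx, sdiff_inter_card RD] at fR
  simp only [sdiff_inter_card Dx, sdiff_inter_card RD.symm] at fD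
  simp only [disj_iff_card, sub_iff_card, cR, cD] at fR fD
  obtain ⟨Z, hZ, hDZ, hZR, hxZ⟩ := overlap_wit hU hsep hR hD cR RD hmin
  have hbal : 10 ≤ ∑ S ∈ A.erase ∅, bal2 (S ∩ {x}).card (S ∩ R).card (S ∩ D).card := by
    have hnn : ∀ S ∈ A.erase ∅, 0 ≤ bal2 (S ∩ {x}).card (S ∩ R).card (S ∩ D).card := by
      intro S hS
      rw [mem_erase] at hS
      have he : (S ∩ {x}).card < 2 := by
        have := card_le_card (inter_subset_right : S ∩ {x} ⊆ {x})
        rw [card_singleton] at this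
        omega
      apply bal2_fin ⟨_, he⟩ ⟨_, inter_card_lt cR⟩ ⟨_, inter_card_lt cD⟩
      rcases hmin S hS.2 (nonempty_iff_ne_empty.2 hS.1) with h | h | h
      · left
        change (S ∩ {x}).card = 1
        rw [inter_singleton_of_mem h, card_singleton]
      · right; left
        change (S ∩ R).card = 3
        rw [inter_eq_right.2 h, cR]
      · right; right
        change (S ∩ D).card = 3
        rw [inter_eq_right.2 h, cD]
    have e2 : (X ∪ R ∪ D) ∩ R = R := inter_eq_right.2 (by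
      intro y hy; simp [hy])
    have hne : X ∪ R ∪ D ≠ Z := by
      intro he
      rw [he] at e2
      rw [e2, cR] at hZR
      omega
    have hsub : ({X ∪ R ∪ D, Z} : Finset (Finset ℕ)) ⊆ A.erase ∅ := by
      intro S hS
      rw [mem_insert, mem_singleton] at hS
      rw [mem_erase]
      rcases hS with rfl | rfl
      · refine ⟨?_, hU _ (hU _ hX _ hR) _ hD⟩
        intro h
        have : x ∈ X ∪ R ∪ D := mem_union_left _ (mem_union_left _ hxX)
        rw [h] at this
        simp at this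
      · refine ⟨?_, hZ⟩
        rintro rfl
        simp at hZR
    refine le_trans ?_ (sum_le_sum_of_subset_of_nonneg hsub (fun S hS _ => hnn S hS))
    rw [sum_pair hne]
    have e1 : (X ∪ R ∪ D) ∩ {x} = {x} :=
      inter_singleton_of_mem (mem_union_left _ (mem_union_left _ hxX))
    have e3 : (X ∪ R ∪ D) ∩ D = D := inter_eq_right.2 (by
      intro y hy; simp [hy])
    have e4 : Z ∩ D = D := inter_eq_right.2 hDZ
    rw [e1, e2, e3, e4, cR, cD, card_singleton]
    have b1 : bal2 1 3 3 = 8 := by decide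
    have b2 : bal2 1 1 3 = 2 := by decide
    have b3 : bal2 1 2 3 = 6 := by decide
    have b4 : bal2 0 2 3 = 2 := by decide
    rw [b1]
    by_cases hx : x ∈ Z
    · rw [inter_singleton_of_mem hx, card_singleton]
      rcases hZR with hZR | hZR
      · rw [hZR, b2]; norm_num
      · rw [hZR, b3]; norm_num
    · rw [inter_singleton_of_notMem hx, card_empty, hxZ.resolve_left hx, b4]
      norm_num
  simp only [bal2, sum_add_distrib, sum_sub_distrib] at hbal
  have hfin : ∑ S ∈ A.erase ∅, ∑ i : Fin 3, (![2, 1, 1] : Fin 3 → ℤ) i *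
      (2 * ((S ∩ ![{x}, R, D] i).card : ℤ) - ((![{x}, R, D] i).card : ℤ)) =
      ∑ S ∈ A.erase ∅, (4 * ((S ∩ {x}).card : ℤ)) +
        ∑ S ∈ A.erase ∅, (2 * (((S ∩ R).card : ℤ) + (S ∩ D).card)) - ∑ S ∈ A.erase ∅, 8 := by
    rw [← sum_add_distrib, ← sum_sub_distrib]
    apply sum_congr rfl
    intro S _
    simp [Fin.sum_univ_three, cR, cD]
    ring
  rw [hfin, hrhs] at hW
  linarith

theorem four_ov_strict {A : Finset (Finset ℕ)} (hU : UnionClosed A) (h : Half A) (hsep : Sep A)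
    (hs : ∀ x, {x} ∉ A) {P Q R D : Finset ℕ}
    (hP : P ∈ A) (hR : R ∈ A) (hD : D ∈ A) (nP : P.Nonempty)
    (cR : R.card = 3) (cD : D.card = 3) (PQ : ¬ Disjoint P Q)
    (hmin : ∀ S ∈ A, S.Nonempty → P ⊆ S ∨ Q ⊆ S ∨ R ⊆ S ∨ D ⊆ S) : False := by
  rw [not_disjoint_iff] at PQ
  obtain ⟨x, xP, xQ⟩ := PQ
  have nR : R.Nonempty := card_pos.1 (by omega)
  have nD : D.Nonempty := card_pos.1 (by omega)
  have fin : A ≠ {∅} := by
    intro he
    rw [he, mem_singleton] at hP
    rw [hP] at nP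
    simp at nP
  by_cases RD : Disjoint R D
  · by_cases xR : x ∈ R
    · obtain ⟨y, hy⟩ := nD
      apply fin
      apply two_points hU h hsep ⟨P, hP⟩ hs x y
      intro S hS hSne
      rcases hmin S hS hSne with h | h | h | h
      · exact Or.inl (h xP)
      · exact Or.inl (h xQ)
      · exact Or.inl (h xR)
      · exact Or.inr (h hy)
    by_cases xD : x ∈ D
    · obtain ⟨y, hy⟩ := nR
      apply fin
      apply two_points hU h hsep ⟨P, hP⟩ hs x y
      intro S hS hSne
      rcases hmin S hS hSne with h | h | h | h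
      · exact Or.inl (h xP)
      · exact Or.inl (h xQ)
      · exact Or.inr (h hy)
      · exact Or.inl (h xD)
    apply overlap_strict hU h hsep hP xP hR hD cR cD xR xD RD
    intro S hS hSne
    rcases hmin S hS hSne with h | h | h | h
    · exact Or.inl (h xP)
    · exact Or.inl (h xQ)
    · exact Or.inr (Or.inl h)
    · exact Or.inr (Or.inr h)
  · rw [not_disjoint_iff] at RD
    obtain ⟨y, yR, yD⟩ := RD
    apply fin
    apply two_points hU h hsep ⟨P, hP⟩ hs x y
    intro S hS hSne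
    rcases hmin S hS hSne with h | h | h | h
    · exact Or.inl (h xP)
    · exact Or.inl (h xQ)
    · exact Or.inr (h yR)
    · exact Or.inr (h yD)

/-- four pairwise disjoint triples -/
theorem four_strict {A : Finset (Finset ℕ)} (hU : UnionClosed A) (h : Half A) (hsep : Sep A)
    {P Q R D : Finset ℕ}
    (hP : P ∈ A) (hQ : Q ∈ A) (hR : R ∈ A) (hD : D ∈ A)
    (cP : P.card = 3) (cQ : Q.card = 3) (cR : R.card = 3) (cD : D.card = 3)
    (PQ : Disjoint P Q) (PR : Disjoint P R) (PD : Disjoint P D) (QR : Disjoint Q R)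
    (QD : Disjoint Q D) (RD : Disjoint R D)
    (hmin : ∀ S ∈ A, S.Nonempty → P ⊆ S ∨ Q ⊆ S ∨ R ⊆ S ∨ D ⊆ S) : False := by
  have hW := weightE h (univ : Finset (Fin 4)) ![P, Q, R, D] (fun _ => 1)
    (fun _ _ => by norm_num)
  have hrhs : ∑ i : Fin 4, (fun _ => (1 : ℤ)) i * ((![P, Q, R, D] i).card : ℤ) = 12 := by
    simp [Fin.sum_univ_four, cP, cQ, cR, cD]
  have nP : P.Nonempty := card_pos.1 (by omega)
  have nQ : Q.Nonempty := card_pos.1 (by omega)
  have nR : R.Nonempty := card_pos.1 (by omega)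
  have nD : D.Nonempty := card_pos.1 (by omega)
  have clP : Cl (A.erase ∅) P := cl_erase (fun S hS => hU S hS P hP) nP
  have clQ : Cl (A.erase ∅) Q := cl_erase (fun S hS => hU S hS Q hQ) nQ
  have clR : Cl (A.erase ∅) R := cl_erase (fun S hS => hU S hS R hR) nR
  have clD : Cl (A.erase ∅) D := cl_erase (fun S hS => hU S hS D hD) nD
  have fP := flow clP (fun S => GG (S ∩ Q).card (S ∩ R).card (S ∩ D).card)
    (fun _ => GG_nonneg _ _ _)
  have fQ := flow clQ (fun S => GG (S ∩ P).card (S ∩ R).card (S ∩ D).card)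
    (fun _ => GG_nonneg _ _ _)
  have fR := flow clR (fun S => GG (S ∩ P).card (S ∩ Q).card (S ∩ D).card)
    (fun _ => GG_nonneg _ _ _)
  have fD := flow clD (fun S => GG (S ∩ P).card (S ∩ Q).card (S ∩ R).card)
    (fun _ => GG_nonneg _ _ _)
  simp only [sdiff_inter_card PQ, sdiff_inter_card PR, sdiff_inter_card PD] at fP
  simp only [sdiff_inter_card PQ.symm, sdiff_inter_card QR, sdiff_inter_card QD] at fQ
  simp only [sdiff_inter_card PR.symm, sdiff_inter_card QR.symm, sdiff_inter_card RD] at fR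
  simp only [sdiff_inter_card PD.symm, sdiff_inter_card QD.symm, sdiff_inter_card RD.symm] at fD
  simp only [disj_iff_card, sub_iff_card, cP, cQ, cR, cD] at fP fQ fR fD
  -- the extra member
  obtain ⟨a, b, c, hab, hac, hbc, hPe⟩ := card_eq_three.1 cP
  have ha : a ∈ P := by rw [hPe]; simp
  have hb : b ∈ P := by rw [hPe]; simp
  obtain ⟨S1, hS1, _, hc1⟩ := sep_trace hsep hP cP ha hb hab
  set Z := S1 ∪ Q ∪ R ∪ D with hZ
  have hZP : Z ∩ P = S1 ∩ P := by
    rw [hZ, union_inter_distrib_right, union_inter_distrib_right, union_inter_distrib_right,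
      disjoint_iff_inter_eq_empty.1 PQ.symm, disjoint_iff_inter_eq_empty.1 PR.symm,
      disjoint_iff_inter_eq_empty.1 PD.symm, union_empty, union_empty, union_empty]
  have hZQ : Z ∩ Q = Q := inter_eq_right.2 (by intro y hy; simp [hZ, hy])
  have hZR : Z ∩ R = R := inter_eq_right.2 (by intro y hy; simp [hZ, hy])
  have hZD : Z ∩ D = D := inter_eq_right.2 (by intro y hy; simp [hZ, hy])
  have hbal : 37 ≤ ∑ S ∈ A.erase ∅,
      bal (S ∩ P).card (S ∩ Q).card (S ∩ R).card (S ∩ D).card := by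
    have hnn : ∀ S ∈ A.erase ∅, 0 ≤ bal (S ∩ P).card (S ∩ Q).card (S ∩ R).card (S ∩ D).card := by
      intro S hS
      rw [mem_erase] at hS
      apply bal_nonneg _ (inter_card_lt cP) _ (inter_card_lt cQ) _ (inter_card_lt cR) _
        (inter_card_lt cD)
      rcases hmin S hS.2 (nonempty_iff_ne_empty.2 hS.1) with h | h | h | h
      · left; rw [inter_eq_right.2 h, cP]
      · right; left; rw [inter_eq_right.2 h, cQ]
      · right; right; left; rw [inter_eq_right.2 h, cR]
      · right; right; right; rw [inter_eq_right.2 h, cD]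
    have e1 : (P ∪ Q ∪ R ∪ D) ∩ P = P := inter_eq_right.2 (by
      intro y hy; simp [hy])
    have e2 : (P ∪ Q ∪ R ∪ D) ∩ Q = Q := inter_eq_right.2 (by
      intro y hy; simp [hy])
    have e3 : (P ∪ Q ∪ R ∪ D) ∩ R = R := inter_eq_right.2 (by
      intro y hy; simp [hy])
    have e4 : (P ∪ Q ∪ R ∪ D) ∩ D = D := inter_eq_right.2 (by
      intro y hy; simp [hy])
    have hne : P ∪ Q ∪ R ∪ D ≠ Z := by
      intro he
      rw [he, hZP] at e1
      rw [e1, cP] at hc1
      omega
    have hsub : ({P ∪ Q ∪ R ∪ D, Z} : Finset (Finset ℕ)) ⊆ A.erase ∅ := by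
      intro S hS
      rw [mem_insert, mem_singleton] at hS
      rw [mem_erase]
      obtain ⟨y, hy⟩ := nD
      rcases hS with rfl | rfl
      · refine ⟨?_, hU _ (hU _ (hU _ hP _ hQ) _ hR) _ hD⟩
        intro h
        have : y ∈ P ∪ Q ∪ R ∪ D := mem_union_right _ hy
        rw [h] at this
        simp at this
      · refine ⟨?_, hU _ (hU _ (hU _ hS1 _ hQ) _ hR) _ hD⟩
        intro h
        have : y ∈ S1 ∪ Q ∪ R ∪ D := mem_union_right _ hy
        rw [← hZ, h] at this
        simp at this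
    refine le_trans ?_ (sum_le_sum_of_subset_of_nonneg hsub (fun S hS _ => hnn S hS))
    rw [sum_pair hne, e1, e2, e3, e4, hZP, hZQ, hZR, hZD, cP, cQ, cR, cD, bal_top]
    have b1 : bal 1 3 3 3 = 6 := by decide
    have b2 : bal 2 3 3 3 = 30 := by decide
    rcases hc1 with hc1 | hc1
    · rw [hc1, b1]; norm_num
    · rw [hc1, b2]; norm_num
  simp only [bal, sum_add_distrib, sum_sub_distrib] at hbal
  have hfin : ∑ S ∈ A.erase ∅, ∑ i : Fin 4, (fun _ => (1 : ℤ)) i * (2 * ((S ∩ ![P, Q, R, D] i).card : ℤ) -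
      ((![P, Q, R, D] i).card : ℤ)) =
      ∑ S ∈ A.erase ∅, (2 * (((S ∩ P).card : ℤ) + (S ∩ Q).card + (S ∩ R).card + (S ∩ D).card) - 12) := by
    apply sum_congr rfl
    intro S _
    simp [Fin.sum_univ_four, cP, cQ, cR, cD]
    ring
  rw [hfin, hrhs] at hW
  have h3 : ∑ S ∈ A.erase ∅, (6 * (((S ∩ P).card : ℤ) + (S ∩ Q).card + (S ∩ R).card + (S ∩ D).card)) -
      ∑ S ∈ A.erase ∅, (36 : ℤ)
      = 3 * ∑ S ∈ A.erase ∅, (2 * (((S ∩ P).card : ℤ) + (S ∩ Q).card + (S ∩ R).card + (S ∩ D).card) - 12) := by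
    rw [mul_sum, ← sum_sub_distrib]
    apply sum_congr rfl
    intro S _
    ring
  linarith

/-- a pair and three members of sizes 2 to 4 -/
theorem pair_gen {A : Finset (Finset ℕ)} (hU : UnionClosed A) (h : Half A) (hsep : Sep A)
    (hs : ∀ x, {x} ∉ A) {M P Q R : Finset ℕ} (hM : M ∈ A) (cM : M.card = 2)
    (hP : P ∈ A) (hQ : Q ∈ A) (hR : R ∈ A)
    (p2 : 2 ≤ P.card) (p4 : P.card ≤ 4) (q2 : 2 ≤ Q.card) (q4 : Q.card ≤ 4)
    (r2 : 2 ≤ R.card) (r4 : R.card ≤ 4)
    (hmin : ∀ S ∈ A, S.Nonempty → M ⊆ S ∨ P ⊆ S ∨ Q ⊆ S ∨ R ⊆ S) : False := by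
  obtain ⟨x, y, hxy, rfl⟩ := card_eq_two.1 cM
  have hmin' : ∀ S ∈ A, S.Nonempty → x ∉ S → y ∉ S → P ⊆ S ∨ Q ⊆ S ∨ R ⊆ S := by
    intro S hS hSne hx _
    rcases hmin S hS hSne with h | h
    · exact absurd (h (by simp)) hx
    · exact h
  obtain ⟨p, hp⟩ : P.Nonempty := card_pos.1 (by omega)
  obtain ⟨q, hq⟩ : Q.Nonempty := card_pos.1 (by omega)
  obtain ⟨r, hr⟩ : R.Nonempty := card_pos.1 (by omega)
  by_cases PQ : Disjoint P Q
  swap
  · rw [not_disjoint_iff] at PQ
    obtain ⟨u, uP, uQ⟩ := PQ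
    apply pair_two hU h hsep hs hxy hM u r
    intro S hS hSne hx hy
    rcases hmin' S hS hSne hx hy with h | h | h
    · exact Or.inl (h uP)
    · exact Or.inl (h uQ)
    · exact Or.inr (h hr)
  by_cases PR : Disjoint P R
  swap
  · rw [not_disjoint_iff] at PR
    obtain ⟨u, uP, uR⟩ := PR
    apply pair_two hU h hsep hs hxy hM u q
    intro S hS hSne hx hy
    rcases hmin' S hS hSne hx hy with h | h | h
    · exact Or.inl (h uP)
    · exact Or.inr (h hq)
    · exact Or.inl (h uR)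
  by_cases QR : Disjoint Q R
  swap
  · rw [not_disjoint_iff] at QR
    obtain ⟨u, uQ, uR⟩ := QR
    apply pair_two hU h hsep hs hxy hM u p
    intro S hS hSne hx hy
    rcases hmin' S hS hSne hx hy with h | h | h
    · exact Or.inr (h hp)
    · exact Or.inl (h uQ)
    · exact Or.inl (h uR)
  by_cases hP' : x ∈ P ∨ y ∈ P
  · apply pair_two hU h hsep hs hxy hM q r
    intro S hS hSne hx hy
    rcases hmin' S hS hSne hx hy with h | h | h
    · rcases hP' with h' | h'
      · exact absurd (h h') hx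
      · exact absurd (h h') hy
    · exact Or.inl (h hq)
    · exact Or.inr (h hr)
  by_cases hQ' : x ∈ Q ∨ y ∈ Q
  · apply pair_two hU h hsep hs hxy hM p r
    intro S hS hSne hx hy
    rcases hmin' S hS hSne hx hy with h | h | h
    · exact Or.inl (h hp)
    · rcases hQ' with h' | h'
      · exact absurd (h h') hx
      · exact absurd (h h') hy
    · exact Or.inr (h hr)
  by_cases hR' : x ∈ R ∨ y ∈ R
  · apply pair_two hU h hsep hs hxy hM p q
    intro S hS hSne hx hy
    rcases hmin' S hS hSne hx hy with h | h | h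
    · exact Or.inl (h hp)
    · exact Or.inr (h hq)
    · rcases hR' with h' | h'
      · exact absurd (h h') hx
      · exact absurd (h h') hy
  push Not at hP' hQ' hR'
  exact pair_three hU h hsep hs hxy hM hP hQ hR p2 p4 q2 q4 r2 r4 PQ PR QR hP'.1 hQ'.1 hR'.1
    hP'.2 hQ'.2 hR'.2 hmin'

theorem card_two_le {A : Finset (Finset ℕ)} (hs : ∀ x, {x} ∉ A) {P : Finset ℕ} (hP : P ∈ A)
    (nP : P.Nonempty) : 2 ≤ P.card := by
  have h0 : 0 < P.card := card_pos.2 nP
  have h1 : P.card ≠ 1 := by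
    intro h1
    obtain ⟨z, rfl⟩ := card_eq_one.1 h1
    exact hs z hP
  omega

theorem four_gen_strict {A : Finset (Finset ℕ)} (hU : UnionClosed A) (h : Half A) (hsep : Sep A)
    (hs : ∀ x, {x} ∉ A) {P Q R D : Finset ℕ}
    (hP : P ∈ A) (hQ : Q ∈ A) (hR : R ∈ A) (hD : D ∈ A)
    (nP : P.Nonempty) (nQ : Q.Nonempty) (nR : R.Nonempty) (nD : D.Nonempty)
    (cP : P.card ≤ 3) (cQ : Q.card ≤ 3) (cR : R.card ≤ 3) (cD : D.card ≤ 3)
    (hmin : ∀ S ∈ A, S.Nonempty → P ⊆ S ∨ Q ⊆ S ∨ R ⊆ S ∨ D ⊆ S) : False := by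
  have p2 := card_two_le hs hP nP
  have q2 := card_two_le hs hQ nQ
  have r2 := card_two_le hs hR nR
  have d2 := card_two_le hs hD nD
  by_cases p3 : P.card = 2
  · exact pair_gen hU h hsep hs hP p3 hQ hR hD q2 (by omega) r2 (by omega) d2 (by omega) hmin
  by_cases q3 : Q.card = 2
  · exact pair_gen hU h hsep hs hQ q3 hP hR hD p2 (by omega) r2 (by omega) d2 (by omega)
      (fun S hS h => by rcases hmin S hS h with h | h | h | h <;> simp [h])
  by_cases r3 : R.card = 2
  · exact pair_gen hU h hsep hs hR r3 hP hQ hD p2 (by omega) q2 (by omega) d2 (by omega)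
      (fun S hS h => by rcases hmin S hS h with h | h | h | h <;> simp [h])
  by_cases d3 : D.card = 2
  · exact pair_gen hU h hsep hs hD d3 hP hQ hR p2 (by omega) q2 (by omega) r2 (by omega)
      (fun S hS h => by rcases hmin S hS h with h | h | h | h <;> simp [h])
  have cP : P.card = 3 := by omega
  have cQ : Q.card = 3 := by omega
  have cR : R.card = 3 := by omega
  have cD : D.card = 3 := by omega
  by_cases PQ : Disjoint P Q
  swap
  · exact four_ov_strict hU h hsep hs hP hR hD nP cR cD PQ hmin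
  by_cases PR : Disjoint P R
  swap
  · exact four_ov_strict hU h hsep hs hP hQ hD nP cQ cD PR (fun S hS h => by
      rcases hmin S hS h with h | h | h | h <;> simp [h])
  by_cases PD : Disjoint P D
  swap
  · exact four_ov_strict hU h hsep hs hP hQ hR nP cQ cR PD (fun S hS h => by
      rcases hmin S hS h with h | h | h | h <;> simp [h])
  by_cases QR : Disjoint Q R
  swap
  · exact four_ov_strict hU h hsep hs hQ hP hD nQ cP cD QR (fun S hS h => by
      rcases hmin S hS h with h | h | h | h <;> simp [h])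
  by_cases QD : Disjoint Q D
  swap
  · exact four_ov_strict hU h hsep hs hQ hP hR nQ cP cR QD (fun S hS h => by
      rcases hmin S hS h with h | h | h | h <;> simp [h])
  by_cases RD : Disjoint R D
  swap
  · exact four_ov_strict hU h hsep hs hR hP hQ nR cP cQ RD (fun S hS h => by
      rcases hmin S hS h with h | h | h | h <;> simp [h])
  exact four_strict hU h hsep hP hQ hR hD cP cQ cR cD PQ PR PD QR QD RD hmin

theorem three_gen_strict {A : Finset (Finset ℕ)} (hU : UnionClosed A) (h : Half A) (hsep : Sep A)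
    (hs : ∀ x, {x} ∉ A) {P Q R : Finset ℕ}
    (hP : P ∈ A) (hQ : Q ∈ A) (hR : R ∈ A)
    (nP : P.Nonempty) (nQ : Q.Nonempty) (nR : R.Nonempty)
    (cP : P.card ≤ 6) (cQ : Q.card ≤ 6) (cR : R.card ≤ 6)
    (hmin : ∀ S ∈ A, S.Nonempty → P ⊆ S ∨ Q ⊆ S ∨ R ⊆ S) : False := by
  have p2 := card_two_le hs hP nP
  have q2 := card_two_le hs hQ nQ
  have r2 := card_two_le hs hR nR
  have fin : A ≠ {∅} := by
    intro he
    rw [he, mem_singleton] at hP
    rw [hP] at nP
    simp at nP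
  have pair : ∀ M N K : Finset ℕ, M ∈ A → M.card = 2 → N.Nonempty → K.Nonempty →
      (∀ S ∈ A, S.Nonempty → M ⊆ S ∨ N ⊆ S ∨ K ⊆ S) → False := by
    intro M N K hM cM hN hK hmin
    obtain ⟨x, y, hxy, rfl⟩ := card_eq_two.1 cM
    obtain ⟨u, hu⟩ := hN
    obtain ⟨v, hv⟩ := hK
    apply pair_two hU h hsep hs hxy hM u v
    intro S hS hSne hx hy
    rcases hmin S hS hSne with h | h | h
    · exact absurd (h (by simp)) hx
    · exact Or.inl (h hu)
    · exact Or.inr (h hv)
  by_cases p3 : P.card = 2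
  · exact pair P Q R hP p3 nQ nR hmin
  by_cases q3 : Q.card = 2
  · exact pair Q P R hQ q3 nP nR (fun S hS h => by rcases hmin S hS h with h | h | h <;> simp [h])
  by_cases r3 : R.card = 2
  · exact pair R P Q hR r3 nP nQ (fun S hS h => by rcases hmin S hS h with h | h | h <;> simp [h])
  by_cases PQ : Disjoint P Q
  swap
  · rw [not_disjoint_iff] at PQ
    obtain ⟨x, xP, xQ⟩ := PQ
    obtain ⟨y, hy⟩ := nR
    apply fin
    apply two_points hU h hsep ⟨P, hP⟩ hs x y
    intro S hS hSne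
    rcases hmin S hS hSne with h | h | h
    · exact Or.inl (h xP)
    · exact Or.inl (h xQ)
    · exact Or.inr (h hy)
  by_cases PR : Disjoint P R
  swap
  · rw [not_disjoint_iff] at PR
    obtain ⟨x, xP, xR⟩ := PR
    obtain ⟨y, hy⟩ := nQ
    apply fin
    apply two_points hU h hsep ⟨P, hP⟩ hs x y
    intro S hS hSne
    rcases hmin S hS hSne with h | h | h
    · exact Or.inl (h xP)
    · exact Or.inr (h hy)
    · exact Or.inl (h xR)
  by_cases QR : Disjoint Q R
  swap
  · rw [not_disjoint_iff] at QR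
    obtain ⟨x, xQ, xR⟩ := QR
    obtain ⟨y, hy⟩ := nP
    apply fin
    apply two_points hU h hsep ⟨P, hP⟩ hs x y
    intro S hS hSne
    rcases hmin S hS hSne with h | h | h
    · exact Or.inr (h hy)
    · exact Or.inl (h xQ)
    · exact Or.inl (h xR)
  exact three_strict hU h hsep hP hQ hR (by omega) cP (by omega) cQ (by omega) cR PQ PR QR hmin

end Pool.Agent.X73.UCP
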