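import Pool.Agent.X73.UCP.Four
set_option autoImplicit false

namespace Pool.Agent.X73.UCP
open Finset
open Pool.Agent.TH392.UC

/-- the minimal nonempty members -/
def minM (A : Finset (Finset ℕ)) : Finset (Finset ℕ) :=
  A.filter (fun m => m.Nonempty ∧ ∀ S ∈ A, S.Nonempty → S ⊆ m → S = m)

theorem exists_minM {A : Finset (Finset ℕ)} {S : Finset ℕ} (hS : S ∈ A) (hne : S.Nonempty) :
    ∃ m ∈ minM A, m ⊆ S := by
  have h1 : (A.filter (fun T => T.Nonempty ∧ T ⊆ S)).Nonempty :=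
    ⟨S, mem_filter.2 ⟨hS, hne, subset_rfl⟩⟩
  obtain ⟨m, hm, hmin⟩ := exists_min_image _ (fun T => T.card) h1
  rw [mem_filter] at hm
  refine ⟨m, ?_, hm.2.2⟩
  rw [minM, mem_filter]
  refine ⟨hm.1, hm.2.1, ?_⟩
  intro T hT hTne hTm
  exact eq_of_subset_of_card_le hTm (hmin T (mem_filter.2 ⟨hT, hTne, hTm.trans hm.2.2⟩))

theorem enum_finset {β : Type*} [DecidableEq β] (M : Finset β) (hne : M.Nonempty) (n : ℕ)
    (h : M.card ≤ n) : ∃ f : Fin n → β, (∀ i, f i ∈ M) ∧ ∀ m ∈ M, ∃ i, f i = m := by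
  have h0 : 0 < M.card := card_pos.2 hne
  refine ⟨fun i => if hi : i.1 < M.card then (M.equivFin.symm ⟨i.1, hi⟩ : β)
    else (M.equivFin.symm ⟨0, h0⟩ : β), ?_, ?_⟩
  · intro i
    by_cases hi : i.1 < M.card
    · simp [hi]
    · simp [hi]
  · intro m hm
    have hlt : (M.equivFin ⟨m, hm⟩).1 < M.card := (M.equivFin ⟨m, hm⟩).2
    refine ⟨⟨(M.equivFin ⟨m, hm⟩).1, by omega⟩, ?_⟩
    simp

/-- the classes of families -/
def Cls (A : Finset (Finset ℕ)) : Prop :=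
  (∃ x y, ∀ S ∈ A, S.Nonempty → x ∈ S ∨ y ∈ S) ∨
  (∀ S ∈ A, S.Nonempty → ∃ m ∈ A, m.Nonempty ∧ m ⊆ S ∧ m.card ≤ 2) ∨
  ((minM A).card ≤ 3 ∧ ∀ m ∈ minM A, m.card ≤ 6) ∨
  ((minM A).card ≤ 4 ∧ ∀ m ∈ minM A, m.card ≤ 3)

theorem minM_sub (A : Finset (Finset ℕ)) (x : ℕ) : minM (A.filter (fun S => x ∉ S)) ⊆ minM A := by
  intro m hm
  rw [minM, mem_filter, mem_filter] at hm
  rw [minM, mem_filter]
  obtain ⟨⟨h1, h2⟩, h3, h4⟩ := hm
  refine ⟨h1, h3, ?_⟩
  intro S hS hSne hSm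
  exact h4 S (mem_filter.2 ⟨hS, fun h => h2 (hSm h)⟩) hSne hSm

theorem cls_her (A : Finset (Finset ℕ)) (x : ℕ) (h : Cls A) : Cls (A.filter (fun S => x ∉ S)) := by
  rcases h with ⟨u, v, h⟩ | h | ⟨h1, h2⟩ | ⟨h1, h2⟩
  · left
    exact ⟨u, v, fun S hS => h S (mem_filter.1 hS).1⟩
  · right; left
    intro S hS hSne
    rw [mem_filter] at hS
    obtain ⟨m, hm, h1, h2, h3⟩ := h S hS.1 hSne
    exact ⟨m, mem_filter.2 ⟨hm, fun h => hS.2 (h2 h)⟩, h1, h2, h3⟩
  · right; right; left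
    exact ⟨(card_le_card (minM_sub A x)).trans h1, fun m hm => h2 m (minM_sub A x hm)⟩
  · right; right; right
    exact ⟨(card_le_card (minM_sub A x)).trans h1, fun m hm => h2 m (minM_sub A x hm)⟩

theorem base {A : Finset (Finset ℕ)} (hU : UnionClosed A) (h : Half A) (hsep : Sep A)
    (hne : A.Nonempty) (hc : Cls A) (hs : ∀ x, {x} ∉ A) : A = {∅} := by
  rcases hc with ⟨u, v, hc⟩ | hc | hc
  · exact two_points hU h hsep hne hs u v hc
  · exact pairs_case hU h hsep hne hs hc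
  by_contra hcon
  have hmem : ∀ m ∈ minM A, m ∈ A ∧ m.Nonempty := by
    intro m hm
    rw [minM, mem_filter] at hm
    exact ⟨hm.1, hm.2.1⟩
  have hMne : (minM A).Nonempty := by
    by_contra hM
    apply hcon
    have hall : ∀ T ∈ A, T = ∅ := by
      intro T hT
      by_contra hT0
      obtain ⟨m, hm, _⟩ := exists_minM hT (nonempty_iff_ne_empty.2 hT0)
      exact hM ⟨m, hm⟩
    obtain ⟨S, hS⟩ := hne
    ext T
    rw [mem_singleton]
    constructor
    · exact hall T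
    · rintro rfl
      rw [← hall S hS]
      exact hS
  rcases hc with ⟨hk, hs6⟩ | ⟨hk, hs3⟩
  · obtain ⟨f, hf, hf'⟩ := enum_finset _ hMne 3 hk
    refine three_gen_strict hU h hsep hs (hmem _ (hf 0)).1 (hmem _ (hf 1)).1 (hmem _ (hf 2)).1
      (hmem _ (hf 0)).2 (hmem _ (hf 1)).2 (hmem _ (hf 2)).2
      (hs6 _ (hf 0)) (hs6 _ (hf 1)) (hs6 _ (hf 2)) ?_
    intro S hS hSne
    obtain ⟨m, hm, hmS⟩ := exists_minM hS hSne
    obtain ⟨i, rfl⟩ := hf' m hm
    fin_cases i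
    · exact Or.inl hmS
    · exact Or.inr (Or.inl hmS)
    · exact Or.inr (Or.inr hmS)
  · obtain ⟨f, hf, hf'⟩ := enum_finset _ hMne 4 hk
    refine four_gen_strict hU h hsep hs (hmem _ (hf 0)).1 (hmem _ (hf 1)).1 (hmem _ (hf 2)).1
      (hmem _ (hf 3)).1
      (hmem _ (hf 0)).2 (hmem _ (hf 1)).2 (hmem _ (hf 2)).2 (hmem _ (hf 3)).2
      (hs3 _ (hf 0)) (hs3 _ (hf 1)) (hs3 _ (hf 2)) (hs3 _ (hf 3)) ?_
    intro S hS hSne
    obtain ⟨m, hm, hmS⟩ := exists_minM hS hSne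
    obtain ⟨i, rfl⟩ := hf' m hm
    fin_cases i
    · exact Or.inl hmS
    · exact Or.inr (Or.inl hmS)
    · exact Or.inr (Or.inr (Or.inl hmS))
    · exact Or.inr (Or.inr (Or.inr hmS))

/-- Poonen's strict inequality for the classes -/
theorem main {A : Finset (Finset ℕ)} (hne : A.Nonempty) (hU : UnionClosed A) (hsep : Sep A)
    (hpow : A ≠ (A.sup id).powerset) (hc : Cls A) :
    ∃ x ∈ A.sup id, A.card < 2 * deg A x := by
  by_contra hcon
  push Not at hcon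
  apply hpow
  have h : Half A := by
    intro x
    by_cases hx : x ∈ A.sup id
    · exact hcon x hx
    · have : deg A x = 0 := by
        unfold deg
        rw [card_eq_zero, filter_eq_empty_iff]
        intro S hS hxS
        exact hx (mem_sup_id.2 ⟨S, hS, hxS⟩)
      omega
  exact peel_all Cls (fun A x _ hA => cls_her A x hA)
    (fun A hU h hsep hne hc hs => base hU h hsep hne hc hs) _ A rfl hU h hsep hne hc

end Pool.Agent.X73.UCP
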