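import Pool.Agent.X73.UCP.Base
set_option autoImplicit false

namespace Pool.Agent.X73.UCP
open Finset
open Pool.Agent.TH392.UC

theorem union_pair_sdiff (S : Finset ℕ) (x y : ℕ) : (S ∪ {x, y}) \ {x, y} = S \ {x, y} :=
  union_sdiff_right S {x, y}

/-- all members can be reduced by a tight pair -/
theorem pair_rest {A : Finset (Finset ℕ)} (hU : UnionClosed A) (h : Half A)
    (hs : ∀ x, {x} ∉ A) {x y : ℕ} (hm : {x, y} ∈ A) :
    (∅ : Finset ℕ) ∈ A ∧ (∀ S ∈ A, S \ {x, y} ∈ A) ∧
    (∀ S ∈ A, S ≠ ∅ → S ≠ {x, y} → (S \ {x, y}).Nonempty) := by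
  have ht := (pair_tight hU h hm).1
  have h1 : ∀ S ∈ A, S \ {x, y} ∈ A := by
    intro S hS
    have := ht _ (hU _ hS _ hm) (by simp) (by simp)
    rwa [union_pair_sdiff] at this
  refine ⟨?_, h1, ?_⟩
  · have := h1 _ hm
    rwa [sdiff_self] at this
  · intro S hS h0 h2
    rw [nonempty_iff_ne_empty]
    intro h3
    rw [sdiff_eq_empty_iff_subset] at h3
    have h4 : ∀ z ∈ S, z = x ∨ z = y := by
      intro z hz
      have := h3 hz
      rwa [mem_insert, mem_singleton] at this
    by_cases hx : x ∈ S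
    · by_cases hy : y ∈ S
      · apply h2
        apply subset_antisymm h3
        intro z hz
        rw [mem_insert, mem_singleton] at hz
        rcases hz with rfl | rfl
        · exact hx
        · exact hy
      · apply hs x
        have : S = {x} := by
          ext z
          rw [mem_singleton]
          constructor
          · intro hz
            rcases h4 z hz with rfl | rfl
            · rfl
            · exact absurd hz hy
          · rintro rfl
            exact hx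
        rwa [← this]
    · by_cases hy : y ∈ S
      · apply hs y
        have : S = {y} := by
          ext z
          rw [mem_singleton]
          constructor
          · intro hz
            rcases h4 z hz with rfl | rfl
            · exact absurd hz hx
            · rfl
          · rintro rfl
            exact hy
        rwa [← this]
      · apply h0
        rw [eq_empty_iff_forall_notMem]
        intro z hz
        rcases h4 z hz with rfl | rfl
        · exact hx hz
        · exact hy hz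

theorem pair_both {A : Finset (Finset ℕ)} (hU : UnionClosed A) (h : Half A) (hsep : Sep A)
    {x y : ℕ} (hxy : x ≠ y) (hm : {x, y} ∈ A) :
    (∃ S ∈ A, x ∈ S ∧ y ∉ S) ∧ (∃ S ∈ A, x ∉ S ∧ y ∈ S) := by
  have ht := (pair_tight hU h hm).2
  obtain ⟨T, hT, hT'⟩ := hsep x (mem_sup_id.2 ⟨_, hm, by simp⟩) y (mem_sup_id.2 ⟨_, hm, by simp⟩) hxy
  have h1 : (∃ S ∈ A, x ∈ S ∧ y ∉ S) ↔ 0 < (A.filter (fun S => x ∈ S ∧ y ∉ S)).card := by
    rw [card_pos]
    constructor
    · rintro ⟨S, hS, h⟩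
      exact ⟨S, mem_filter.2 ⟨hS, h⟩⟩
    · rintro ⟨S, hS⟩
      rw [mem_filter] at hS
      exact ⟨S, hS.1, hS.2⟩
  have h2 : (∃ S ∈ A, x ∉ S ∧ y ∈ S) ↔ 0 < (A.filter (fun S => x ∉ S ∧ y ∈ S)).card := by
    rw [card_pos]
    constructor
    · rintro ⟨S, hS, h⟩
      exact ⟨S, mem_filter.2 ⟨hS, h⟩⟩
    · rintro ⟨S, hS⟩
      rw [mem_filter] at hS
      exact ⟨S, hS.1, hS.2⟩
  rw [h1, h2, ht]
  have h3 : 0 < (A.filter (fun S => x ∉ S ∧ y ∈ S)).card := by
    by_cases hx : x ∈ T
    · rw [← ht]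
      exact card_pos.2 ⟨T, mem_filter.2 ⟨hT, hx, fun hy => hT' ⟨fun _ => hy, fun _ => hx⟩⟩⟩
    · exact card_pos.2 ⟨T, mem_filter.2 ⟨hT, hx, by tauto⟩⟩
  exact ⟨h3, h3⟩

/-- a pair among the members and two points meeting all the nonempty members avoiding the pair -/
theorem pair_two {A : Finset (Finset ℕ)} (hU : UnionClosed A) (h : Half A) (hsep : Sep A)
    (hs : ∀ x, {x} ∉ A) {x y : ℕ} (hxy : x ≠ y) (hm : {x, y} ∈ A) (u v : ℕ)
    (huv : ∀ S ∈ A, S.Nonempty → x ∉ S → y ∉ S → u ∈ S ∨ v ∈ S) : False := by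
  obtain ⟨h0, h1, h2⟩ := pair_rest hU h hs hm
  obtain ⟨⟨X0, hX0, hxX0, hyX0⟩, Y0, hY0, hxY0, hyY0⟩ := pair_both hU h hsep hxy hm
  set N := A.filter (fun S => x ∉ S ∧ y ∉ S) with hN
  have hNu : ∀ S ∈ N, ∀ T ∈ N, S ∪ T ∈ N := by
    intro S hS T hT
    rw [hN, mem_filter] at hS hT ⊢
    refine ⟨hU _ hS.1 _ hT.1, ?_, ?_⟩ <;> rw [mem_union] <;> tauto
  have hsub : ∀ S ∈ A, S \ {x, y} ∈ N := by
    intro S hS
    rw [hN, mem_filter]
    exact ⟨h1 S hS, by simp, by simp⟩
  set W := N.sup id with hW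
  have hWN : W ∈ N := by
    rw [hW]
    apply sup_induction (p := fun S => S ∈ N)
    · rw [hN, mem_filter]
      exact ⟨h0, by simp, by simp⟩
    · intro S hS T hT
      exact hNu S hS T hT
    · intro S hS
      exact hS
  have hWle : ∀ S ∈ N, S ⊆ W := by
    intro S hS z hz
    rw [hW]
    exact mem_sup_id.2 ⟨S, hS, hz⟩
  have hWN' := hWN
  rw [hN, mem_filter] at hWN'
  obtain ⟨hWA, hxW, hyW⟩ := hWN'
  have hWx : insert x W ∈ A := by
    have : insert x W = X0 ∪ W := by
      ext z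
      rw [mem_insert, mem_union]
      constructor
      · rintro (rfl | hz)
        · exact Or.inl hxX0
        · exact Or.inr hz
      · rintro (hz | hz)
        · by_cases hzx : z = x
          · exact Or.inl hzx
          · right
            apply hWle _ (hsub _ hX0)
            rw [mem_sdiff, mem_insert, mem_singleton]
            refine ⟨hz, ?_⟩
            rintro (h | rfl)
            · exact hzx h
            · exact hyX0 hz
        · exact Or.inr hz
    rw [this]
    exact hU _ hX0 _ hWA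
  have hWy : insert y W ∈ A := by
    have : insert y W = Y0 ∪ W := by
      ext z
      rw [mem_insert, mem_union]
      constructor
      · rintro (rfl | hz)
        · exact Or.inl hyY0
        · exact Or.inr hz
      · rintro (hz | hz)
        · by_cases hzy : z = y
          · exact Or.inl hzy
          · right
            apply hWle _ (hsub _ hY0)
            rw [mem_sdiff, mem_insert, mem_singleton]
            refine ⟨hz, ?_⟩
            rintro (rfl | h)
            · exact hxY0 hz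
            · exact hzy h
        · exact Or.inr hz
    rw [this]
    exact hU _ hY0 _ hWA
  have hWxy : insert x (insert y W) ∈ A := by
    have : insert x (insert y W) = insert x W ∪ insert y W := by
      ext z
      simp only [mem_insert, mem_union]
      tauto
    rw [this]
    exact hU _ hWx _ hWy
  have hWne : W.Nonempty := by
    have h3 : (X0 \ {x, y}).Nonempty := by
      apply h2 _ hX0
      · rintro rfl
        simp at hxX0
      · rintro rfl
        simp at hyX0
    exact h3.mono (hWle _ (hsub _ hX0))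
  obtain ⟨u', v', hu', hv', huv'⟩ : ∃ u' v', u' ∈ W ∧ v' ∈ W ∧
      ∀ S ∈ A, S.Nonempty → x ∉ S → y ∉ S → u' ∈ S ∨ v' ∈ S := by
    by_cases huW : u ∈ W
    · by_cases hvW : v ∈ W
      · exact ⟨u, v, huW, hvW, huv⟩
      · refine ⟨u, u, huW, huW, ?_⟩
        intro S hS hSne hx hy
        rcases huv S hS hSne hx hy with h | h
        · exact Or.inl h
        · exact absurd (hWle S (by rw [hN, mem_filter]; exact ⟨hS, hx, hy⟩) h) hvW
    · have hvW : v ∈ W := (huv W hWA hWne hxW hyW).resolve_left huW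
      refine ⟨v, v, hvW, hvW, ?_⟩
      intro S hS hSne hx hy
      rcases huv S hS hSne hx hy with h | h
      · exact absurd (hWle S (by rw [hN, mem_filter]; exact ⟨hS, hx, hy⟩) h) huW
      · exact Or.inl h
  obtain ⟨c1, c2, c3⟩ := split4 A u' v'
  have hnn : (A.filter (fun S => u' ∉ S ∧ v' ∉ S)).card ≤ 2 := by
    have hsub2 : A.filter (fun S => u' ∉ S ∧ v' ∉ S) ⊆ {∅, {x, y}} := by
      intro S hS
      rw [mem_filter] at hS
      rw [mem_insert, mem_singleton]
      by_contra hcon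
      push Not at hcon
      have h3 := h2 S hS.1 hcon.1.ne_empty hcon.2
      rcases huv' _ (h1 S hS.1) h3 (by simp) (by simp) with h | h
      · exact hS.2.1 (mem_sdiff.1 h).1
      · exact hS.2.2 (mem_sdiff.1 h).1
    exact (card_le_card hsub2).trans (card_le_two)
  have hbb : 4 ≤ (A.filter (fun S => u' ∈ S ∧ v' ∈ S)).card := by
    have hsub2 : ({W, insert x W, insert y W, insert x (insert y W)} : Finset (Finset ℕ)) ⊆
        A.filter (fun S => u' ∈ S ∧ v' ∈ S) := by
      intro S hS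
      simp only [mem_insert, mem_singleton] at hS
      rw [mem_filter]
      rcases hS with rfl | rfl | rfl | rfl
      · exact ⟨hWA, hu', hv'⟩
      · exact ⟨hWx, mem_insert_of_mem hu', mem_insert_of_mem hv'⟩
      · exact ⟨hWy, mem_insert_of_mem hu', mem_insert_of_mem hv'⟩
      · exact ⟨hWxy, mem_insert_of_mem (mem_insert_of_mem hu'),
          mem_insert_of_mem (mem_insert_of_mem hv')⟩
    have hc : ({W, insert x W, insert y W, insert x (insert y W)} : Finset (Finset ℕ)).card = 4 := by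
      have e1 : W ≠ insert x W := fun he => hxW (by rw [he]; exact mem_insert_self x W)
      have e2 : W ≠ insert y W := fun he => hyW (by rw [he]; exact mem_insert_self y W)
      have e3 : W ≠ insert x (insert y W) := fun he => hxW (by rw [he]; exact mem_insert_self x _)
      have e4 : insert x W ≠ insert y W := by
        intro he
        have : x ∈ insert y W := by rw [← he]; exact mem_insert_self x W
        rw [mem_insert] at this
        exact this.elim hxy hxW
      have e5 : insert x W ≠ insert x (insert y W) := by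
        intro he
        have : y ∈ insert x W := by rw [he]; simp
        rw [mem_insert] at this
        exact this.elim hxy.symm hyW
      have e6 : insert y W ≠ insert x (insert y W) := by
        intro he
        have : x ∈ insert y W := by rw [he]; exact mem_insert_self x _
        rw [mem_insert] at this
        exact this.elim hxy hxW
      rw [card_insert_of_notMem, card_insert_of_notMem, card_insert_of_notMem, card_singleton]
      · rw [mem_singleton]; exact e6
      · simp only [mem_insert, mem_singleton, not_or]; exact ⟨e4, e5⟩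
      · simp only [mem_insert, mem_singleton, not_or]; exact ⟨e1, e2, e3⟩
    rw [← hc]
    exact card_le_card hsub2
  have hu2 := h u'
  have hv2 := h v'
  omega

theorem bal_small : ∀ p q : Fin 5, 2 ≤ p.1 → 2 ≤ q.1 → ∀ a b : Fin 5, a.1 ≤ p.1 → b.1 ≤ q.1 →
    (if a.1 = p.1 ∧ b.1 = q.1 then (60 : ℤ) else 0) ≤
      GK p.1 q.1 a.1 b.1 + ((if a.1 = 0 then gK q.1 b.1 else 0)
      + (if b.1 = 0 then gK p.1 a.1 else 0)) - ((if a.1 = p.1 then gK q.1 b.1 else 0)
      + (if b.1 = q.1 then gK p.1 a.1 else 0)) := by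
  decide +kernel

theorem split_small : ∀ p q r : Fin 5, 2 ≤ p.1 → 2 ≤ q.1 → 2 ≤ r.1 → ∀ a b c : Fin 5,
    a.1 ≤ p.1 → b.1 ≤ q.1 → c.1 ≤ r.1 → (a = p ∨ b = q ∨ c = r) →
    (if a = p then GK q.1 r.1 b.1 c.1 else 0) + (if b = q then GK p.1 r.1 a.1 c.1 else 0)
      + (if c = r then GK p.1 q.1 a.1 b.1 else 0) =
    ((60 / p.1 : ℕ) : ℤ) * (2 * (a.1 : ℤ) - p.1) + ((60 / q.1 : ℕ) : ℤ) * (2 * (b.1 : ℤ) - q.1)
      + ((60 / r.1 : ℕ) : ℤ) * (2 * (c.1 : ℤ) - r.1) := by
  decide +kernel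

theorem key_small {T : Finset (Finset ℕ)} (hne : T.Nonempty)
    {P Q : Finset ℕ} (clP : Cl T P) (clQ : Cl T Q) (hPQ : Disjoint P Q)
    (p2 : 2 ≤ P.card) (p4 : P.card ≤ 4) (q2 : 2 ≤ Q.card) (q4 : Q.card ≤ 4) :
    60 ≤ ∑ S ∈ T, GK P.card Q.card (S ∩ P).card (S ∩ Q).card := by
  have fP := flow clP (fun S => gK Q.card (S ∩ Q).card) (fun _ => gK_nonneg _ _)
  have fQ := flow clQ (fun S => gK P.card (S ∩ P).card) (fun _ => gK_nonneg _ _)
  simp only [sdiff_inter_card hPQ] at fP
  simp only [sdiff_inter_card hPQ.symm] at fQ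
  simp only [disj_iff_card, sub_iff_card] at fP fQ
  have hlow : (60 : ℤ) ≤ ∑ S ∈ T, (if (S ∩ P).card = P.card ∧ (S ∩ Q).card = Q.card
      then (60 : ℤ) else 0) := by
    obtain ⟨S0, hS0⟩ := hne
    have hmem : S0 ∪ P ∪ Q ∈ T := clQ _ (clP _ hS0)
    have h1 := single_le_sum (f := fun S : Finset ℕ => (if (S ∩ P).card = P.card ∧
      (S ∩ Q).card = Q.card then (60 : ℤ) else 0)) (s := T) (fun S _ => by
        change (0 : ℤ) ≤ if _ then _ else _
        split_ifs <;> norm_num) hmem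
    have e2 : (S0 ∪ P ∪ Q) ∩ P = P := inter_eq_right.2 (by intro y hy; simp [hy])
    have e3 : (S0 ∪ P ∪ Q) ∩ Q = Q := inter_eq_right.2 (by intro y hy; simp [hy])
    simp only [e2, e3, and_self, if_true] at h1
    exact h1
  have hpt : ∑ S ∈ T, (if (S ∩ P).card = P.card ∧ (S ∩ Q).card = Q.card then (60 : ℤ) else 0) ≤
      ∑ S ∈ T, (GK P.card Q.card (S ∩ P).card (S ∩ Q).card +
        ((if (S ∩ P).card = 0 then gK Q.card (S ∩ Q).card else 0)
          + (if (S ∩ Q).card = 0 then gK P.card (S ∩ P).card else 0)) -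
        ((if (S ∩ P).card = P.card then gK Q.card (S ∩ Q).card else 0)
          + (if (S ∩ Q).card = Q.card then gK P.card (S ∩ P).card else 0))) := by
    apply sum_le_sum
    intro S _
    have ha : (S ∩ P).card ≤ P.card := card_le_card inter_subset_right
    have hb : (S ∩ Q).card ≤ Q.card := card_le_card inter_subset_right
    exact bal_small ⟨P.card, by omega⟩ ⟨Q.card, by omega⟩ p2 q2 ⟨(S ∩ P).card, by omega⟩
      ⟨(S ∩ Q).card, by omega⟩ ha hb
  rw [sum_sub_distrib, sum_add_distrib, sum_add_distrib, sum_add_distrib] at hpt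
  linarith

/-- the weight of a set -/
def wt (P Q R S : Finset ℕ) : ℤ :=
  ((60 / P.card : ℕ) : ℤ) * (2 * ((S ∩ P).card : ℤ) - P.card)
    + ((60 / Q.card : ℕ) : ℤ) * (2 * ((S ∩ Q).card : ℤ) - Q.card)
    + ((60 / R.card : ℕ) : ℤ) * (2 * ((S ∩ R).card : ℤ) - R.card)

theorem three_sum {T : Finset (Finset ℕ)} (hne : T.Nonempty) {P Q R : Finset ℕ}
    (clP : Cl T P) (clQ : Cl T Q) (clR : Cl T R)
    (p2 : 2 ≤ P.card) (p4 : P.card ≤ 4) (q2 : 2 ≤ Q.card) (q4 : Q.card ≤ 4)
    (r2 : 2 ≤ R.card) (r4 : R.card ≤ 4)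
    (PQ : Disjoint P Q) (PR : Disjoint P R) (QR : Disjoint Q R)
    (hmin : ∀ S ∈ T, P ⊆ S ∨ Q ⊆ S ∨ R ⊆ S) :
    180 ≤ ∑ S ∈ T, wt P Q R S := by
  have part : ∀ M P Q : Finset ℕ, (∃ S ∈ T, M ⊆ S) → Cl T P → Cl T Q →
      Disjoint P Q → 2 ≤ P.card → P.card ≤ 4 → 2 ≤ Q.card → Q.card ≤ 4 →
      60 ≤ ∑ S ∈ T, if M ⊆ S then GK P.card Q.card (S ∩ P).card (S ∩ Q).card else 0 := by
    intro M P Q hM clP clQ hPQ p2 p4 q2 q4
    rw [← sum_filter]
    refine key_small ?_ ?_ ?_ hPQ p2 p4 q2 q4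
    · obtain ⟨S, hS, hMS⟩ := hM
      exact ⟨S, mem_filter.2 ⟨hS, hMS⟩⟩
    · intro S hS
      rw [mem_filter] at hS ⊢
      exact ⟨clP _ hS.1, hS.2.trans subset_union_left⟩
    · intro S hS
      rw [mem_filter] at hS ⊢
      exact ⟨clQ _ hS.1, hS.2.trans subset_union_left⟩
  obtain ⟨S0, hS0⟩ := hne
  have s1 := part P Q R ⟨_, clP _ hS0, subset_union_right⟩ clQ clR QR q2 q4 r2 r4
  have s2 := part Q P R ⟨_, clQ _ hS0, subset_union_right⟩ clP clR PR p2 p4 r2 r4
  have s3 := part R P Q ⟨_, clR _ hS0, subset_union_right⟩ clP clQ PQ p2 p4 q2 q4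
  have hfin : ∑ S ∈ T, wt P Q R S =
      ∑ S ∈ T, ((if P ⊆ S then GK Q.card R.card (S ∩ Q).card (S ∩ R).card else 0) +
        (if Q ⊆ S then GK P.card R.card (S ∩ P).card (S ∩ R).card else 0) +
        (if R ⊆ S then GK P.card Q.card (S ∩ P).card (S ∩ Q).card else 0)) := by
    apply sum_congr rfl
    intro S hS
    have ha : (S ∩ P).card ≤ P.card := card_le_card inter_subset_right
    have hb : (S ∩ Q).card ≤ Q.card := card_le_card inter_subset_right
    have hc : (S ∩ R).card ≤ R.card := card_le_card inter_subset_right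
    have h1 := split_small ⟨P.card, by omega⟩ ⟨Q.card, by omega⟩ ⟨R.card, by omega⟩ p2 q2 r2
      ⟨(S ∩ P).card, by omega⟩ ⟨(S ∩ Q).card, by omega⟩ ⟨(S ∩ R).card, by omega⟩ ha hb hc
      (by
        rcases hmin S hS with h | h | h
        · left; exact Fin.ext (sub_iff_card.1 h)
        · right; left; exact Fin.ext (sub_iff_card.1 h)
        · right; right; exact Fin.ext (sub_iff_card.1 h))
    simp only [Fin.mk.injEq] at h1
    simp only [sub_iff_card]
    rw [h1]
    rfl
  rw [hfin, sum_add_distrib, sum_add_distrib]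
  linarith

theorem wt_empty {P Q R S : Finset ℕ} (p2 : 2 ≤ P.card) (p4 : P.card ≤ 4) (q2 : 2 ≤ Q.card)
    (q4 : Q.card ≤ 4) (r2 : 2 ≤ R.card) (r4 : R.card ≤ 4)
    (hP : Disjoint S P) (hQ : Disjoint S Q) (hR : Disjoint S R) : wt P Q R S = -180 := by
  unfold wt
  rw [disj_iff_card.1 hP, disj_iff_card.1 hQ, disj_iff_card.1 hR]
  have key : ∀ p : ℕ, 2 ≤ p → p ≤ 4 → ((60 / p : ℕ) : ℤ) * (2 * ((0 : ℕ) : ℤ) - p) = -60 := by
    intro p h1 h2
    interval_cases p <;> norm_num
  rw [key _ p2 p4, key _ q2 q4, key _ r2 r4]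
  norm_num

theorem weightW {A : Finset (Finset ℕ)} (h : Half A) (P Q R : Finset ℕ) :
    ∑ S ∈ A, wt P Q R S ≤ 0 := by
  have h1 := weightH h (univ : Finset (Fin 3)) ![P, Q, R]
    ![((60 / P.card : ℕ) : ℤ), ((60 / Q.card : ℕ) : ℤ), ((60 / R.card : ℕ) : ℤ)] (by
      intro i _
      fin_cases i <;> exact Int.natCast_nonneg _)
  have h2 : ∑ S ∈ A, wt P Q R S = ∑ S ∈ A, ∑ i : Fin 3,
      ![((60 / P.card : ℕ) : ℤ), ((60 / Q.card : ℕ) : ℤ), ((60 / R.card : ℕ) : ℤ)] i *
        (2 * ((S ∩ ![P, Q, R] i).card : ℤ) - ((![P, Q, R] i).card : ℤ)) := by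
    apply sum_congr rfl
    intro S _
    simp [Fin.sum_univ_three, wt]
  rw [h2]
  exact h1

/-- a pair and three small disjoint sets -/
theorem pair_three {A : Finset (Finset ℕ)} (hU : UnionClosed A) (h : Half A) (hsep : Sep A)
    (hs : ∀ x, {x} ∉ A) {x y : ℕ} (hxy : x ≠ y) (hm : {x, y} ∈ A) {P Q R : Finset ℕ}
    (hP : P ∈ A) (hQ : Q ∈ A) (hR : R ∈ A)
    (p2 : 2 ≤ P.card) (p4 : P.card ≤ 4) (q2 : 2 ≤ Q.card) (q4 : Q.card ≤ 4)
    (r2 : 2 ≤ R.card) (r4 : R.card ≤ 4)
    (PQ : Disjoint P Q) (PR : Disjoint P R) (QR : Disjoint Q R)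
    (xP : x ∉ P) (xQ : x ∉ Q) (xR : x ∉ R) (yP : y ∉ P) (yQ : y ∉ Q) (yR : y ∉ R)
    (hmin : ∀ S ∈ A, S.Nonempty → x ∉ S → y ∉ S → P ⊆ S ∨ Q ⊆ S ∨ R ⊆ S) : False := by
  obtain ⟨h0, h1, h2⟩ := pair_rest hU h hs hm
  obtain ⟨⟨X0, hX0, hxX0, hyX0⟩, Y0, hY0, hxY0, hyY0⟩ := pair_both hU h hsep hxy hm
  have hmin' : ∀ S ∈ A, S ≠ ∅ → S ≠ {x, y} → P ⊆ S ∨ Q ⊆ S ∨ R ⊆ S := by
    intro S hS h3 h4
    rcases hmin _ (h1 S hS) (h2 S hS h3 h4) (by simp) (by simp) with h | h | h
    · exact Or.inl (h.trans sdiff_subset)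
    · exact Or.inr (Or.inl (h.trans sdiff_subset))
    · exact Or.inr (Or.inr (h.trans sdiff_subset))
  have nP : P.Nonempty := card_pos.1 (by omega)
  have nQ : Q.Nonempty := card_pos.1 (by omega)
  have nR : R.Nonempty := card_pos.1 (by omega)
  -- closure of the parts
  have clN : ∀ M ∈ A, M.Nonempty → x ∉ M → y ∉ M →
      Cl ((A.filter (fun S => x ∉ S ∧ y ∉ S)).erase ∅) M := by
    intro M hM hMne hx hy S hS
    simp only [mem_erase, mem_filter] at hS ⊢
    refine ⟨?_, hU _ hS.2.1 _ hM, ?_, ?_⟩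
    · intro he
      rw [union_eq_empty] at he
      exact hS.1 he.1
    · rw [mem_union]; tauto
    · rw [mem_union]; tauto
  have clB : ∀ M ∈ A, M.Nonempty → x ∉ M → y ∉ M →
      Cl ((A.filter (fun S => x ∈ S ∧ y ∈ S)).erase {x, y}) M := by
    intro M hM hMne hx hy S hS
    simp only [mem_erase, mem_filter] at hS ⊢
    refine ⟨?_, hU _ hS.2.1 _ hM, mem_union_left _ hS.2.2.1, mem_union_left _ hS.2.2.2⟩
    intro he
    obtain ⟨z, hz⟩ := hMne
    have : z ∈ ({x, y} : Finset ℕ) := by rw [← he]; exact mem_union_right _ hz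
    rw [mem_insert, mem_singleton] at this
    rcases this with rfl | rfl
    · exact hx hz
    · exact hy hz
  have clX : ∀ M ∈ A, y ∉ M → Cl (A.filter (fun S => x ∈ S ∧ y ∉ S)) M := by
    intro M hM hy S hS
    simp only [mem_filter] at hS ⊢
    refine ⟨hU _ hS.1 _ hM, mem_union_left _ hS.2.1, ?_⟩
    rw [mem_union]; tauto
  have clY : ∀ M ∈ A, x ∉ M → Cl (A.filter (fun S => x ∉ S ∧ y ∈ S)) M := by
    intro M hM hx S hS
    simp only [mem_filter] at hS ⊢
    refine ⟨hU _ hS.1 _ hM, ?_, mem_union_left _ hS.2.2⟩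
    rw [mem_union]; tauto
  have sN : 180 ≤ ∑ S ∈ (A.filter (fun S => x ∉ S ∧ y ∉ S)).erase ∅, wt P Q R S := by
    apply three_sum ⟨P, ?_⟩ (clN P hP nP xP yP) (clN Q hQ nQ xQ yQ) (clN R hR nR xR yR)
      p2 p4 q2 q4 r2 r4 PQ PR QR
    · intro S hS
      simp only [mem_erase, mem_filter] at hS
      apply hmin' S hS.2.1 hS.1
      rintro rfl
      exact hS.2.2.1 (by simp)
    · simp only [mem_erase, mem_filter]
      exact ⟨nonempty_iff_ne_empty.1 nP, hP, xP, yP⟩
  have sB : 180 ≤ ∑ S ∈ (A.filter (fun S => x ∈ S ∧ y ∈ S)).erase {x, y}, wt P Q R S := by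
    apply three_sum ⟨P ∪ {x, y}, ?_⟩ (clB P hP nP xP yP) (clB Q hQ nQ xQ yQ) (clB R hR nR xR yR)
      p2 p4 q2 q4 r2 r4 PQ PR QR
    · intro S hS
      simp only [mem_erase, mem_filter] at hS
      apply hmin' S hS.2.1 _ hS.1
      rintro rfl
      have := hS.2.2.1
      simp at this
    · simp only [mem_erase, mem_filter]
      refine ⟨?_, hU _ hP _ hm, by simp, by simp⟩
      intro he
      obtain ⟨z, hz⟩ := nP
      have : z ∈ ({x, y} : Finset ℕ) := by rw [← he]; exact mem_union_left _ hz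
      rw [mem_insert, mem_singleton] at this
      rcases this with rfl | rfl
      · exact xP hz
      · exact yP hz
  have sX : 180 ≤ ∑ S ∈ A.filter (fun S => x ∈ S ∧ y ∉ S), wt P Q R S := by
    apply three_sum ⟨X0, mem_filter.2 ⟨hX0, hxX0, hyX0⟩⟩ (clX P hP yP) (clX Q hQ yQ) (clX R hR yR)
      p2 p4 q2 q4 r2 r4 PQ PR QR
    intro S hS
    rw [mem_filter] at hS
    apply hmin' S hS.1
    · rintro rfl
      have := hS.2.1
      simp at this
    · rintro rfl
      exact hS.2.2 (by simp)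
  have sY : 180 ≤ ∑ S ∈ A.filter (fun S => x ∉ S ∧ y ∈ S), wt P Q R S := by
    apply three_sum ⟨Y0, mem_filter.2 ⟨hY0, hxY0, hyY0⟩⟩ (clY P hP xP) (clY Q hQ xQ) (clY R hR xR)
      p2 p4 q2 q4 r2 r4 PQ PR QR
    intro S hS
    rw [mem_filter] at hS
    apply hmin' S hS.1
    · rintro rfl
      have := hS.2.2
      simp at this
    · rintro rfl
      exact hS.2.1 (by simp)
  have hW := weightW h P Q R
  have e1 := sum_filter_add_sum_filter_not A (fun S => x ∈ S) (fun S => wt P Q R S)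
  have e2 := sum_filter_add_sum_filter_not (A.filter (fun S => x ∈ S)) (fun S => y ∈ S)
    (fun S => wt P Q R S)
  have e3 := sum_filter_add_sum_filter_not (A.filter (fun S => x ∉ S)) (fun S => y ∈ S)
    (fun S => wt P Q R S)
  rw [filter_filter, filter_filter] at e2 e3
  have e4 := add_sum_erase (A.filter (fun S => x ∉ S ∧ y ∉ S)) (fun S => wt P Q R S)
    (a := ∅) (mem_filter.2 ⟨h0, by simp, by simp⟩)
  have e5 := add_sum_erase (A.filter (fun S => x ∈ S ∧ y ∈ S)) (fun S => wt P Q R S)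
    (a := {x, y}) (mem_filter.2 ⟨hm, by simp, by simp⟩)
  have dis : ∀ M : Finset ℕ, x ∉ M → y ∉ M → Disjoint {x, y} M := by
    intro M hx hy
    rw [disjoint_left]
    intro z hz
    rw [mem_insert, mem_singleton] at hz
    rcases hz with rfl | rfl
    · exact hx
    · exact hy
  have w1 : wt P Q R ∅ = -180 := wt_empty p2 p4 q2 q4 r2 r4 (disjoint_empty_left _)
    (disjoint_empty_left _) (disjoint_empty_left _)
  have w2 : wt P Q R {x, y} = -180 := wt_empty p2 p4 q2 q4 r2 r4 (dis P xP yP)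
    (dis Q xQ yQ) (dis R xR yR)
  simp only [w1] at e4
  simp only [w2] at e5
  linarith

end Pool.Agent.X73.UCP
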