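import Pool.Agent.X73.UCP.Pair
set_option autoImplicit false

namespace Pool.Agent.X73.UCP
open Finset
open Pool.Agent.TH392.UC

theorem arith (X Y : ℕ) : (-20 : ℤ) ≤
    15 * ((X : ℤ) * ((X : ℤ) - 1)) + 15 * ((Y : ℤ) * ((Y : ℤ) - 1)) - 20 * ((X : ℤ) * Y) := by
  by_cases hs : X + Y = 3
  · obtain ⟨rfl, rfl⟩ | ⟨rfl, rfl⟩ | ⟨rfl, rfl⟩ | ⟨rfl, rfl⟩ :
      (X = 0 ∧ Y = 3) ∨ (X = 1 ∧ Y = 2) ∨ (X = 2 ∧ Y = 1) ∨ (X = 3 ∧ Y = 0) := by omega
    all_goals norm_num
  · have hX : (0 : ℤ) ≤ X := Int.natCast_nonneg _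
    have hY : (0 : ℤ) ≤ Y := Int.natCast_nonneg _
    rcases Nat.lt_or_ge (X + Y) 3 with h | h
    · have h1 : (0 : ℤ) ≤ 2 - ((X : ℤ) + Y) := by
        have : X + Y ≤ 2 := by omega
        have : ((X + Y : ℕ) : ℤ) ≤ 2 := by exact_mod_cast this
        push_cast at this
        linarith
      nlinarith [sq_nonneg ((X : ℤ) - Y), mul_nonneg h1 (by linarith : (0 : ℤ) ≤ 4 - ((X : ℤ) + Y))]
    · have h1 : (0 : ℤ) ≤ ((X : ℤ) + Y) - 4 := by
        have : 4 ≤ X + Y := by omega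
        have : (4 : ℤ) ≤ ((X + Y : ℕ) : ℤ) := by exact_mod_cast this
        push_cast at this
        linarith
      nlinarith [sq_nonneg ((X : ℤ) - Y), mul_nonneg h1 (by linarith : (0 : ℤ) ≤ ((X : ℤ) + Y) - 2)]

theorem choose_id (X : ℕ) : (X : ℤ) * ((X : ℤ) - 1) = 2 * (X.choose 2 : ℤ) := by
  rcases Nat.eq_zero_or_pos X with h | h
  · rw [h]; simp
  · have e := Nat.choose_two_right X
    have e2 : X * (X - 1) = 2 * X.choose 2 := by
      rw [e]
      obtain ⟨r, hr⟩ := Nat.even_mul_pred_self X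
      omega
    have e3 : ((X * (X - 1) : ℕ) : ℤ) = ((2 * X.choose 2 : ℕ) : ℤ) := by rw [e2]
    push_cast [Nat.cast_sub h] at e3
    exact e3

/-- the number of members of a fibre with two singleton traces -/
theorem one_one {U : Finset (Finset ℕ)} {P Q B : Finset ℕ}
    (hB : ∀ S ∈ U, S \ (P ∪ Q) = B) (X Y : Finset ℕ)
    (hX : ∀ S ∈ U, ∀ z, S ∩ P = {z} → z ∈ X) (hY : ∀ S ∈ U, ∀ z, S ∩ Q = {z} → z ∈ Y) :
    (U.filter (fun S => (S ∩ P).card = 1 ∧ (S ∩ Q).card = 1)).card ≤ X.card * Y.card := by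
  rw [← card_product]
  refine (card_le_card ?_).trans
    (card_image_le (f := fun z : ℕ × ℕ => B ∪ {z.1} ∪ {z.2}) (s := X ×ˢ Y))
  intro S hS
  rw [mem_filter] at hS
  obtain ⟨hS, hx, hy⟩ := hS
  obtain ⟨x, hx⟩ := card_eq_one.1 hx
  obtain ⟨y, hy⟩ := card_eq_one.1 hy
  rw [mem_image]
  refine ⟨(x, y), ?_, ?_⟩
  · rw [mem_product]
    exact ⟨hX S hS x hx, hY S hS y hy⟩
  · have e1 := hB S hS
    ext z
    have a1 := Finset.ext_iff.1 e1 z
    have a3 := Finset.ext_iff.1 hx z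
    have a4 := Finset.ext_iff.1 hy z
    simp only [mem_sdiff, mem_union, mem_inter, mem_singleton] at a1 a3 a4 ⊢
    tauto

theorem fiber_ge {U : Finset (Finset ℕ)} (hU : UnionClosed U) (hne : U.Nonempty)
    {P Q B : Finset ℕ} (clP : Cl U P) (clQ : Cl U Q) (hPQ : Disjoint P Q)
    (hB : ∀ S ∈ U, S \ (P ∪ Q) = B) :
    40 ≤ ∑ S ∈ U, low P.card Q.card (S ∩ P).card (S ∩ Q).card := by
  classical
  unfold low
  rw [sum_sub_distrib, sum_add_distrib, sum_add_distrib]
  rw [sum_ite_const (fun S => (S ∩ P).card = P.card ∧ (S ∩ Q).card = Q.card),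
    sum_ite_const (fun S => (S ∩ P).card = P.card ∧ (S ∩ Q).card = 2),
    sum_ite_const (fun S => (S ∩ P).card = 2 ∧ (S ∩ Q).card = Q.card),
    sum_ite_const (fun S => (S ∩ P).card = 1 ∧ (S ∩ Q).card = 1)]
  set X : Finset ℕ := P.filter (fun x => ∃ S ∈ U, S ∩ P = {x}) with hX
  set Y : Finset ℕ := Q.filter (fun x => ∃ S ∈ U, S ∩ Q = {x}) with hY
  have h1 : X.card.choose 2 ≤
      (U.filter (fun S => (S ∩ P).card = 2 ∧ (S ∩ Q).card = Q.card)).card :=
    crossing hU clQ hPQ hB X (fun x hx => by rw [hX, mem_filter] at hx; exact hx)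
  have h2 : Y.card.choose 2 ≤
      (U.filter (fun S => (S ∩ P).card = P.card ∧ (S ∩ Q).card = 2)).card := by
    have := crossing hU clP hPQ.symm (B := B) (by rw [union_comm]; exact hB) Y
      (fun x hx => by rw [hY, mem_filter] at hx; exact hx)
    simpa only [and_comm] using this
  have h3 : (U.filter (fun S => (S ∩ P).card = 1 ∧ (S ∩ Q).card = 1)).card ≤ X.card * Y.card := by
    apply one_one hB
    · intro S hS z hz
      rw [hX, mem_filter]
      refine ⟨?_, S, hS, hz⟩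
      have : z ∈ S ∩ P := by rw [hz]; simp
      exact (mem_inter.1 this).2
    · intro S hS z hz
      rw [hY, mem_filter]
      refine ⟨?_, S, hS, hz⟩
      have : z ∈ S ∩ Q := by rw [hz]; simp
      exact (mem_inter.1 this).2
  have h4 : 1 ≤ (U.filter (fun S => (S ∩ P).card = P.card ∧ (S ∩ Q).card = Q.card)).card := by
    rw [Nat.one_le_iff_ne_zero, ← Nat.pos_iff_ne_zero, card_pos]
    obtain ⟨S, hS⟩ := hne
    refine ⟨S ∪ P ∪ Q, mem_filter.2 ⟨clQ _ (clP _ hS), ?_, ?_⟩⟩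
    · rw [inter_eq_right.2 (by intro y hy; simp [hy])]
    · rw [inter_eq_right.2 (by intro y hy; simp [hy])]
  have c1 := choose_id X.card
  have c2 := choose_id Y.card
  have h1' : (X.card.choose 2 : ℤ) ≤
      ((U.filter (fun S => (S ∩ P).card = 2 ∧ (S ∩ Q).card = Q.card)).card : ℤ) := by
    exact_mod_cast h1
  have h2' : (Y.card.choose 2 : ℤ) ≤
      ((U.filter (fun S => (S ∩ P).card = P.card ∧ (S ∩ Q).card = 2)).card : ℤ) := by
    exact_mod_cast h2
  have h3' : ((U.filter (fun S => (S ∩ P).card = 1 ∧ (S ∩ Q).card = 1)).card : ℤ) ≤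
      (X.card : ℤ) * (Y.card : ℤ) := by
    exact_mod_cast h3
  have h4' : (1 : ℤ) ≤
      ((U.filter (fun S => (S ∩ P).card = P.card ∧ (S ∩ Q).card = Q.card)).card : ℤ) := by
    exact_mod_cast h4
  have ha := arith X.card Y.card
  linarith

/-- two fibres -/
theorem two_fibres {T : Finset (Finset ℕ)} (hT : UnionClosed T)
    {P Q : Finset ℕ} (clP : Cl T P) (clQ : Cl T Q) (hPQ : Disjoint P Q)
    (p3 : 3 ≤ P.card) (p6 : P.card ≤ 6) (q3 : 3 ≤ Q.card) (q6 : Q.card ≤ 6)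
    {S1 S2 : Finset ℕ} (hS1 : S1 ∈ T) (hS2 : S2 ∈ T) (hne : S1 \ (P ∪ Q) ≠ S2 \ (P ∪ Q)) :
    80 ≤ ∑ S ∈ T, GK P.card Q.card (S ∩ P).card (S ∩ Q).card := by
  have hlow : 80 ≤ ∑ S ∈ T, low P.card Q.card (S ∩ P).card (S ∩ Q).card := by
    rw [← sum_fiberwise_of_maps_to (t := T.image (fun S => S \ (P ∪ Q)))
      (g := fun S => S \ (P ∪ Q)) (fun S hS => mem_image_of_mem _ hS)]
    have h2 : 2 ≤ (T.image (fun S => S \ (P ∪ Q))).card := by
      rw [← card_pair hne]
      apply card_le_card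
      intro B hB
      rw [mem_insert, mem_singleton] at hB
      rcases hB with rfl | rfl
      · exact mem_image_of_mem _ hS1
      · exact mem_image_of_mem _ hS2
    have h3 : ∑ B ∈ T.image (fun S => S \ (P ∪ Q)), (40 : ℤ) ≤
        ∑ B ∈ T.image (fun S => S \ (P ∪ Q)), ∑ S ∈ T with S \ (P ∪ Q) = B,
          low P.card Q.card (S ∩ P).card (S ∩ Q).card := by
      apply sum_le_sum
      intro B hB
      rw [mem_image] at hB
      obtain ⟨S0, hS0, hS0B⟩ := hB
      refine fiber_ge (B := B) ?_ ?_ ?_ ?_ hPQ ?_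
      · intro S hS S' hS'
        rw [mem_filter] at hS hS' ⊢
        refine ⟨hT _ hS.1 _ hS'.1, ?_⟩
        rw [union_sdiff_distrib, hS.2, hS'.2, union_self]
      · exact ⟨S0, mem_filter.2 ⟨hS0, hS0B⟩⟩
      · intro S hS
        rw [mem_filter] at hS ⊢
        refine ⟨clP _ hS.1, ?_⟩
        rw [← hS.2]
        ext y
        simp only [mem_sdiff, mem_union]
        tauto
      · intro S hS
        rw [mem_filter] at hS ⊢
        refine ⟨clQ _ hS.1, ?_⟩
        rw [← hS.2]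
        ext y
        simp only [mem_sdiff, mem_union]
        tauto
      · intro S hS
        rw [mem_filter] at hS
        exact hS.2
    rw [sum_const, nsmul_eq_mul] at h3
    have h4 : (2 : ℤ) ≤ ((T.image (fun S => S \ (P ∪ Q))).card : ℤ) := by exact_mod_cast h2
    linarith
  have fP := flow clP (fun S => gK Q.card (S ∩ Q).card) (fun _ => gK_nonneg _ _)
  have fQ := flow clQ (fun S => gK P.card (S ∩ P).card) (fun _ => gK_nonneg _ _)
  simp only [sdiff_inter_card hPQ] at fP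
  simp only [sdiff_inter_card hPQ.symm] at fQ
  simp only [disj_iff_card, sub_iff_card] at fP fQ
  have hpt : ∑ S ∈ T, low P.card Q.card (S ∩ P).card (S ∩ Q).card ≤
      ∑ S ∈ T, (GK P.card Q.card (S ∩ P).card (S ∩ Q).card +
        ((if (S ∩ P).card = 0 then gK Q.card (S ∩ Q).card else 0)
          + (if (S ∩ Q).card = 0 then gK P.card (S ∩ P).card else 0)) -
        ((if (S ∩ P).card = P.card then gK Q.card (S ∩ Q).card else 0)
          + (if (S ∩ Q).card = Q.card then gK P.card (S ∩ P).card else 0))) := by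
    apply sum_le_sum
    intro S _
    have ha : (S ∩ P).card ≤ P.card := card_le_card inter_subset_right
    have hb : (S ∩ Q).card ≤ Q.card := card_le_card inter_subset_right
    exact bal_three ⟨P.card, by omega⟩ ⟨Q.card, by omega⟩ p3 q3 ⟨(S ∩ P).card, by omega⟩
      ⟨(S ∩ Q).card, by omega⟩ ha hb
  rw [sum_sub_distrib, sum_add_distrib, sum_add_distrib, sum_add_distrib] at hpt
  linarith

/-- the surplus of a row with one full side -/
def sg (q b : ℕ) : ℤ :=
  if b = 0 then 0 else 30 + (60 / q : ℕ) * b - max 0 (60 - 2 * (60 / q : ℕ) * b)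

def low2 (p q a b : ℕ) : ℤ :=
  (if a = p ∧ b = q then 60 else 0) + (if a = p ∧ b ≠ q then sg q b else 0)
    + (if b = q ∧ a ≠ p then sg p a else 0) - (if a = 1 ∧ b = 1 then 20 else 0)

theorem bal_three2 : ∀ p q : Fin 7, 3 ≤ p.1 → 3 ≤ q.1 → ∀ a b : Fin 7, a.1 ≤ p.1 → b.1 ≤ q.1 →
    low2 p.1 q.1 a.1 b.1 ≤ GK p.1 q.1 a.1 b.1 + ((if a.1 = 0 then gK q.1 b.1 else 0)
      + (if b.1 = 0 then gK p.1 a.1 else 0)) - ((if a.1 = p.1 then gK q.1 b.1 else 0)
      + (if b.1 = q.1 then gK p.1 a.1 else 0)) := by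
  decide +kernel

theorem sg_fin : ∀ q b : Fin 7, 3 ≤ q.1 → 0 < b.1 → b.1 < q.1 →
    0 ≤ sg q.1 b.1 ∧ ((2 ≤ b.1 ∨ q.1 = 3) → 30 ≤ sg q.1 b.1) := by
  decide +kernel

/-- one fibre -/
theorem one_fibre {T : Finset (Finset ℕ)} (hne : T.Nonempty)
    {P Q B : Finset ℕ} (clP : Cl T P) (clQ : Cl T Q) (hPQ : Disjoint P Q)
    (p3 : 3 ≤ P.card) (p6 : P.card ≤ 6) (q3 : 3 ≤ Q.card) (q6 : Q.card ≤ 6)
    (hB : ∀ S ∈ T, S \ (P ∪ Q) = B) (X Y : Finset ℕ)
    (hX : ∀ S ∈ T, ∀ z, S ∩ P = {z} → z ∈ X) (hY : ∀ S ∈ T, ∀ z, S ∩ Q = {z} → z ∈ Y) :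
    60 + ∑ S ∈ T, (if P ⊆ S ∧ ¬ Q ⊆ S then sg Q.card (S ∩ Q).card else 0)
      + ∑ S ∈ T, (if Q ⊆ S ∧ ¬ P ⊆ S then sg P.card (S ∩ P).card else 0)
      - 20 * ((X.card : ℤ) * Y.card) ≤
      ∑ S ∈ T, GK P.card Q.card (S ∩ P).card (S ∩ Q).card := by
  have fP := flow clP (fun S => gK Q.card (S ∩ Q).card) (fun _ => gK_nonneg _ _)
  have fQ := flow clQ (fun S => gK P.card (S ∩ P).card) (fun _ => gK_nonneg _ _)
  simp only [sdiff_inter_card hPQ] at fP
  simp only [sdiff_inter_card hPQ.symm] at fQ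
  simp only [disj_iff_card, sub_iff_card] at fP fQ
  have hpt : ∑ S ∈ T, low2 P.card Q.card (S ∩ P).card (S ∩ Q).card ≤
      ∑ S ∈ T, (GK P.card Q.card (S ∩ P).card (S ∩ Q).card +
        ((if (S ∩ P).card = 0 then gK Q.card (S ∩ Q).card else 0)
          + (if (S ∩ Q).card = 0 then gK P.card (S ∩ P).card else 0)) -
        ((if (S ∩ P).card = P.card then gK Q.card (S ∩ Q).card else 0)
          + (if (S ∩ Q).card = Q.card then gK P.card (S ∩ P).card else 0))) := by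
    apply sum_le_sum
    intro S _
    have ha : (S ∩ P).card ≤ P.card := card_le_card inter_subset_right
    have hb : (S ∩ Q).card ≤ Q.card := card_le_card inter_subset_right
    exact bal_three2 ⟨P.card, by omega⟩ ⟨Q.card, by omega⟩ p3 q3 ⟨(S ∩ P).card, by omega⟩
      ⟨(S ∩ Q).card, by omega⟩ ha hb
  rw [sum_sub_distrib, sum_add_distrib, sum_add_distrib, sum_add_distrib] at hpt
  unfold low2 at hpt
  rw [sum_sub_distrib, sum_add_distrib, sum_add_distrib] at hpt
  rw [sum_ite_const (fun S => (S ∩ P).card = P.card ∧ (S ∩ Q).card = Q.card),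
    sum_ite_const (fun S => (S ∩ P).card = 1 ∧ (S ∩ Q).card = 1)] at hpt
  have h3 := one_one hB X Y hX hY
  have h4 : 1 ≤ (T.filter (fun S => (S ∩ P).card = P.card ∧ (S ∩ Q).card = Q.card)).card := by
    rw [Nat.one_le_iff_ne_zero, ← Nat.pos_iff_ne_zero, card_pos]
    obtain ⟨S, hS⟩ := hne
    refine ⟨S ∪ P ∪ Q, mem_filter.2 ⟨clQ _ (clP _ hS), ?_, ?_⟩⟩
    · rw [inter_eq_right.2 (by intro y hy; simp [hy])]
    · rw [inter_eq_right.2 (by intro y hy; simp [hy])]
  have h3' : ((T.filter (fun S => (S ∩ P).card = 1 ∧ (S ∩ Q).card = 1)).card : ℤ) ≤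
      (X.card : ℤ) * (Y.card : ℤ) := by
    exact_mod_cast h3
  have h4' : (1 : ℤ) ≤
      ((T.filter (fun S => (S ∩ P).card = P.card ∧ (S ∩ Q).card = Q.card)).card : ℤ) := by
    exact_mod_cast h4
  have e1 : ∑ S ∈ T, (if P ⊆ S ∧ ¬ Q ⊆ S then sg Q.card (S ∩ Q).card else 0) =
      ∑ S ∈ T, (if (S ∩ P).card = P.card ∧ (S ∩ Q).card ≠ Q.card
        then sg Q.card (S ∩ Q).card else 0) := by
    apply sum_congr rfl
    intro S _
    simp only [sub_iff_card, ne_eq]
  have e2 : ∑ S ∈ T, (if Q ⊆ S ∧ ¬ P ⊆ S then sg P.card (S ∩ P).card else 0) =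
      ∑ S ∈ T, (if (S ∩ Q).card = Q.card ∧ (S ∩ P).card ≠ P.card
        then sg P.card (S ∩ P).card else 0) := by
    apply sum_congr rfl
    intro S _
    simp only [sub_iff_card, ne_eq]
  rw [e1, e2]
  linarith

/-- the total surplus of a separating family of partial traces -/
theorem trace_sum {Q : Finset ℕ} (q3 : 3 ≤ Q.card) (q6 : Q.card ≤ 6) {T : Finset (Finset ℕ)}
    (hT : ∀ t ∈ T, t ⊆ Q ∧ t.Nonempty ∧ t ≠ Q)
    (hun : ∀ t ∈ T, ∀ t' ∈ T, t ∪ t' ≠ Q → t ∪ t' ∈ T)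
    (hsep : ∀ x ∈ Q, ∀ y ∈ Q, x ≠ y → ∃ t ∈ T, ¬ (x ∈ t ↔ y ∈ t))
    (X : Finset ℕ) (hX : ∀ z, z ∈ X → {z} ∈ T) (hX' : ∀ z, {z} ∈ T → z ∈ X) :
    15 * ((X.card : ℤ) * ((X.card : ℤ) - 1)) + 30 ≤ ∑ t ∈ T, sg Q.card t.card := by
  have hcard : ∀ t ∈ T, 0 < t.card ∧ t.card < Q.card := by
    intro t ht
    obtain ⟨h1, h2, h3⟩ := hT t ht
    exact ⟨card_pos.2 h2, card_lt_card (h1.ssubset_of_ne h3)⟩
  have hsg : ∀ t ∈ T, 0 ≤ sg Q.card t.card ∧
      ((2 ≤ t.card ∨ Q.card = 3) → 30 ≤ sg Q.card t.card) := by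
    intro t ht
    obtain ⟨h1, h2⟩ := hcard t ht
    exact sg_fin ⟨Q.card, by omega⟩ ⟨t.card, by omega⟩ q3 h1 h2
  have hXQ : ∀ z ∈ X, z ∈ Q := by
    intro z hz
    exact (hT _ (hX z hz)).1 (mem_singleton_self z)
  have hPsub : powersetCard 2 X ⊆ T := by
    intro t ht
    rw [mem_powersetCard] at ht
    obtain ⟨z, w, hzw, rfl⟩ := card_eq_two.1 ht.2
    have h1 := hX z (ht.1 (by simp))
    have h2 := hX w (ht.1 (by simp))
    have e : ({z, w} : Finset ℕ) = {z} ∪ {w} := by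
      ext v; simp
    rw [e]
    apply hun _ h1 _ h2
    intro he
    have : (({z} : Finset ℕ) ∪ {w}).card ≤ 2 := by
      rw [← e]
      exact card_le_two
    rw [he] at this
    omega
  -- an extra trace
  obtain ⟨E, hE, hE', hE2⟩ : ∃ E ∈ T, E ∉ powersetCard 2 X ∧ (2 ≤ E.card ∨ Q.card = 3) := by
    by_cases hq : Q.card = 3
    · obtain ⟨x, y, hx, hy, hxy⟩ : ∃ x y, x ∈ Q ∧ y ∈ Q ∧ x ≠ y := by
        obtain ⟨x, hx, y, hy, hxy⟩ := one_lt_card.1 (show 1 < Q.card by omega)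
        exact ⟨x, y, hx, hy, hxy⟩
      obtain ⟨t, ht, _⟩ := hsep x hx y hy hxy
      by_cases hXe : X.Nonempty
      · obtain ⟨z, hz⟩ := hXe
        refine ⟨{z}, hX z hz, ?_, Or.inr hq⟩
        rw [mem_powersetCard]
        rintro ⟨_, h⟩
        rw [card_singleton] at h
        omega
      · refine ⟨t, ht, ?_, Or.inr hq⟩
        rw [not_nonempty_iff_eq_empty] at hXe
        rw [hXe, mem_powersetCard]
        rintro ⟨h1, h2⟩
        rw [subset_empty] at h1
        rw [h1] at h2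
        simp at h2
    · by_contra hcon
      push Not at hcon
      have hall : ∀ t ∈ T, t ⊆ X := by
        intro t ht
        by_cases htp : t ∈ powersetCard 2 X
        · exact (mem_powersetCard.1 htp).1
        · have h1 := (hcon t ht htp).1
          have h2 := (hcard t ht).1
          obtain ⟨z, rfl⟩ := card_eq_one.1 (show t.card = 1 by omega)
          intro w hw
          rw [mem_singleton] at hw
          subst hw
          exact hX' w ht
      have hXc : X.card ≤ 2 := by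
        by_contra hX3
        obtain ⟨Z, hZX, hZ3⟩ := exists_subset_card_eq (show 3 ≤ X.card by omega)
        obtain ⟨a, b, c, hab, hac, hbc, rfl⟩ := card_eq_three.1 hZ3
        have ha := hX a (hZX (by simp))
        have hb := hX b (hZX (by simp))
        have hc := hX c (hZX (by simp))
        have hab' : ({a} ∪ {b} : Finset ℕ) ∈ T := by
          apply hun _ ha _ hb
          intro he
          have : (({a} : Finset ℕ) ∪ {b}).card ≤ 2 := by
            have e : (({a} : Finset ℕ) ∪ {b}) = {a, b} := by ext v; simp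
            rw [e]; exact card_le_two
          rw [he] at this
          omega
        have habc : (({a} ∪ {b}) ∪ {c} : Finset ℕ) = {a, b, c} := by
          ext v; simp
        have h3 : ({a, b, c} : Finset ℕ) ∈ T := by
          rw [← habc]
          apply hun _ hab' _ hc
          intro he
          rw [habc] at he
          rw [he] at hZ3
          omega
        have := (hcon _ h3 (by rw [mem_powersetCard]; rintro ⟨_, h⟩; omega)).1
        omega
      have h4 : 2 ≤ (Q \ X).card := by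
        have := le_card_sdiff X Q
        omega
      obtain ⟨x, hx, y, hy, hxy⟩ := one_lt_card.1 (show 1 < (Q \ X).card by omega)
      rw [mem_sdiff] at hx hy
      obtain ⟨t, ht, ht'⟩ := hsep x hx.1 y hy.1 hxy
      apply ht'
      constructor
      · intro h
        exact absurd (hall t ht h) hx.2
      · intro h
        exact absurd (hall t ht h) hy.2
  have hsub : insert E (powersetCard 2 X) ⊆ T := by
    intro t ht
    rw [mem_insert] at ht
    rcases ht with rfl | ht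
    · exact hE
    · exact hPsub ht
  have h1 : ∑ t ∈ insert E (powersetCard 2 X), (30 : ℤ) ≤
      ∑ t ∈ insert E (powersetCard 2 X), sg Q.card t.card := by
    apply sum_le_sum
    intro t ht
    rw [mem_insert] at ht
    rcases ht with rfl | ht
    · exact (hsg _ hE).2 hE2
    · refine (hsg t (hPsub ht)).2 (Or.inl ?_)
      rw [(mem_powersetCard.1 ht).2]
  have h2 : ∑ t ∈ insert E (powersetCard 2 X), sg Q.card t.card ≤ ∑ t ∈ T, sg Q.card t.card :=
    sum_le_sum_of_subset_of_nonneg hsub (fun t ht _ => (hsg t ht).1)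
  rw [sum_const, card_insert_of_notMem hE', card_powersetCard, nsmul_eq_mul] at h1
  push_cast at h1
  have h3 := choose_id X.card
  linarith

/-- the rows with two full sides -/
theorem rows {A : Finset (Finset ℕ)} (hU : UnionClosed A) (hsep : Sep A) {P Q R : Finset ℕ}
    (hP : P ∈ A) (hQ : Q ∈ A) (hR : R ∈ A) (nP : P.Nonempty)
    (r3 : 3 ≤ R.card) (r6 : R.card ≤ 6) (PR : Disjoint P R) (QR : Disjoint Q R)
    (hcov : ∀ S ∈ A, S ⊆ P ∪ Q ∪ R) (X : Finset ℕ)
    (hX : ∀ z, z ∈ X ↔ z ∈ R ∧ ∃ S ∈ A, S ∩ R = {z}) :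
    15 * ((X.card : ℤ) * ((X.card : ℤ) - 1)) + 30 ≤
      ∑ S ∈ (A.erase ∅).filter (fun S => P ⊆ S),
        (if Q ⊆ S ∧ ¬ R ⊆ S then sg R.card (S ∩ R).card else 0) := by
  classical
  set T := (A.image (fun S => S ∩ R)).filter (fun t => t.Nonempty ∧ t ≠ R) with hT
  have memT : ∀ t, t ∈ T ↔ (∃ S ∈ A, S ∩ R = t) ∧ t.Nonempty ∧ t ≠ R := by
    intro t
    rw [hT, mem_filter, mem_image]
  have hR2 : ∀ z : ℕ, ({z} : Finset ℕ) ≠ R := by
    intro z he
    rw [← he, card_singleton] at r3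
    omega
  have h1 := trace_sum (Q := R) r3 r6 (T := T) (by
      intro t ht
      rw [memT] at ht
      obtain ⟨⟨S, _, rfl⟩, h2, h3⟩ := ht
      exact ⟨inter_subset_right, h2, h3⟩) (by
      intro t ht t' ht' hne
      rw [memT] at ht ht' ⊢
      obtain ⟨⟨S, hS, rfl⟩, h2, h3⟩ := ht
      obtain ⟨⟨S', hS', rfl⟩, h2', h3'⟩ := ht'
      exact ⟨⟨S ∪ S', hU _ hS _ hS', union_inter_distrib_right _ _ _⟩,
        h2.mono subset_union_left, hne⟩) (by
      intro x hx y hy hxy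
      obtain ⟨S, hS, hS'⟩ := hsep x (mem_sup_id.2 ⟨R, hR, hx⟩) y (mem_sup_id.2 ⟨R, hR, hy⟩) hxy
      refine ⟨S ∩ R, ?_, ?_⟩
      · rw [memT]
        refine ⟨⟨S, hS, rfl⟩, ?_, ?_⟩
        · by_cases hxS : x ∈ S
          · exact ⟨x, mem_inter.2 ⟨hxS, hx⟩⟩
          · exact ⟨y, mem_inter.2 ⟨by tauto, hy⟩⟩
        · intro he
          apply hS'
          have hx2 : x ∈ S ∩ R := by rw [he]; exact hx
          have hy2 : y ∈ S ∩ R := by rw [he]; exact hy
          exact ⟨fun _ => (mem_inter.1 hy2).1, fun _ => (mem_inter.1 hx2).1⟩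
      · simpa [hx, hy] using hS') X (by
      intro z hz
      rw [memT]
      obtain ⟨_, S, hS, hSz⟩ := (hX z).1 hz
      exact ⟨⟨S, hS, hSz⟩, singleton_nonempty z, hR2 z⟩) (by
      intro z hz
      rw [memT] at hz
      obtain ⟨⟨S, hS, hSz⟩, _, _⟩ := hz
      rw [hX]
      refine ⟨?_, S, hS, hSz⟩
      have : z ∈ S ∩ R := by rw [hSz]; simp
      exact (mem_inter.1 this).2)
  refine h1.trans ?_
  have hkey : ∀ t ∈ T, (P ∪ Q ∪ t) ∩ R = t := by
    intro t ht
    rw [memT] at ht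
    obtain ⟨⟨S, hS, rfl⟩, h2, h3⟩ := ht
    ext z
    simp only [mem_inter, mem_union]
    constructor
    · rintro ⟨(h | h) | h, hz⟩
      · exact absurd hz (disjoint_left.1 PR h)
      · exact absurd hz (disjoint_left.1 QR h)
      · exact h
    · intro h
      exact ⟨Or.inr h, h.2⟩
  have hinj : Set.InjOn (fun t : Finset ℕ => P ∪ Q ∪ t) (T : Set (Finset ℕ)) := by
    intro t ht t' ht' he
    rw [mem_coe] at ht ht'
    change P ∪ Q ∪ t = P ∪ Q ∪ t' at he
    rw [← hkey t ht, ← hkey t' ht', he]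
  rw [← sum_filter]
  have h2 : ∑ t ∈ T, sg R.card t.card =
      ∑ S ∈ T.image (fun t => P ∪ Q ∪ t), sg R.card (S ∩ R).card := by
    rw [sum_image hinj]
    apply sum_congr rfl
    intro t ht
    rw [hkey t ht]
  rw [h2]
  apply sum_le_sum_of_subset_of_nonneg
  · intro S hS
    rw [mem_image] at hS
    obtain ⟨t, ht, rfl⟩ := hS
    have ht' := ht
    rw [memT] at ht'
    obtain ⟨⟨S, hS, hSt⟩, h3, h4⟩ := ht'
    rw [mem_filter, mem_filter, mem_erase]
    have e : P ∪ Q ∪ t = S ∪ P ∪ Q := by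
      ext z
      have a1 : z ∈ S → z ∈ P ∪ Q ∪ R := fun hz => hcov S hS hz
      rw [← hSt]
      simp only [mem_union, mem_inter] at a1 ⊢
      tauto
    refine ⟨⟨⟨?_, ?_⟩, ?_⟩, ?_, ?_⟩
    · obtain ⟨z, hz⟩ := nP
      intro he
      have : z ∈ P ∪ Q ∪ t := mem_union_left _ (mem_union_left _ hz)
      rw [he] at this
      simp at this
    · rw [e]
      exact hU _ (hU _ hS _ hP) _ hQ
    · intro z hz
      exact mem_union_left _ (mem_union_left _ hz)
    · intro z hz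
      exact mem_union_left _ (mem_union_right _ hz)
    · intro hRs
      apply h4
      rw [← hkey t ht]
      exact inter_eq_right.2 hRs
  · intro S hS _
    rw [mem_filter] at hS
    have hle : (S ∩ R).card < R.card := by
      apply card_lt_card
      rw [Finset.ssubset_iff_subset_ne]
      exact ⟨inter_subset_right, fun he => hS.2.2 (inter_eq_right.1 he)⟩
    rcases Nat.eq_zero_or_pos (S ∩ R).card with h0 | h0
    · rw [h0]
      simp [sg]
    · exact (sg_fin ⟨R.card, by omega⟩ ⟨(S ∩ R).card, by omega⟩ r3 h0 hle).1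

/-- three pairwise disjoint members of sizes 3 to 6: impossible if no element is in more than half -/
theorem three_strict {A : Finset (Finset ℕ)} (hU : UnionClosed A) (h : Half A) (hsep : Sep A)
    {P Q R : Finset ℕ} (hP : P ∈ A) (hQ : Q ∈ A) (hR : R ∈ A)
    (p3 : 3 ≤ P.card) (p6 : P.card ≤ 6) (q3 : 3 ≤ Q.card) (q6 : Q.card ≤ 6)
    (r3 : 3 ≤ R.card) (r6 : R.card ≤ 6)
    (PQ : Disjoint P Q) (PR : Disjoint P R) (QR : Disjoint Q R)
    (hmin : ∀ S ∈ A, S.Nonempty → P ⊆ S ∨ Q ⊆ S ∨ R ⊆ S) : False := by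
  classical
  have nP : P.Nonempty := card_pos.1 (by omega)
  have nQ : Q.Nonempty := card_pos.1 (by omega)
  have nR : R.Nonempty := card_pos.1 (by omega)
  have clP : Cl (A.erase ∅) P := cl_erase (fun S hS => hU S hS P hP) nP
  have clQ : Cl (A.erase ∅) Q := cl_erase (fun S hS => hU S hS Q hQ) nQ
  have clR : Cl (A.erase ∅) R := cl_erase (fun S hS => hU S hS R hR) nR
  have hUe : UnionClosed (A.erase ∅) := by
    intro S hS S' hS'
    rw [mem_erase] at hS hS' ⊢
    refine ⟨?_, hU _ hS.2 _ hS'.2⟩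
    intro h
    rw [union_eq_empty] at h
    exact hS.1 h.1
  have hP' : P ∈ A.erase ∅ := mem_erase.2 ⟨nonempty_iff_ne_empty.1 nP, hP⟩
  have hQ' : Q ∈ A.erase ∅ := mem_erase.2 ⟨nonempty_iff_ne_empty.1 nQ, hQ⟩
  have hR' : R ∈ A.erase ∅ := mem_erase.2 ⟨nonempty_iff_ne_empty.1 nR, hR⟩
  have hfU : ∀ M : Finset ℕ, UnionClosed ((A.erase ∅).filter (fun S => M ⊆ S)) := by
    intro M S hS S' hS'
    rw [mem_filter] at hS hS' ⊢
    exact ⟨hUe _ hS.1 _ hS'.1, hS.2.trans subset_union_left⟩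
  have hfC : ∀ M N : Finset ℕ, Cl (A.erase ∅) N → Cl ((A.erase ∅).filter (fun S => M ⊆ S)) N := by
    intro M N hN S hS
    rw [mem_filter] at hS ⊢
    exact ⟨hN _ hS.1, hS.2.trans subset_union_left⟩
  -- the weighted sum
  have hW := weightE h (univ : Finset (Fin 3)) ![P, Q, R]
    ![((60 / P.card : ℕ) : ℤ), ((60 / Q.card : ℕ) : ℤ), ((60 / R.card : ℕ) : ℤ)] (by
      intro i _
      fin_cases i <;> exact Int.natCast_nonneg _)
  have hrhs : ∑ i : Fin 3, ![((60 / P.card : ℕ) : ℤ), ((60 / Q.card : ℕ) : ℤ),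
      ((60 / R.card : ℕ) : ℤ)] i * ((![P, Q, R] i).card : ℤ) = 180 := by
    have key : ∀ p : ℕ, 3 ≤ p → p ≤ 6 → ((60 / p : ℕ) : ℤ) * (p : ℤ) = 60 := by
      intro p h1 h2
      interval_cases p <;> norm_num
    have e : ∑ i : Fin 3, ![((60 / P.card : ℕ) : ℤ), ((60 / Q.card : ℕ) : ℤ),
      ((60 / R.card : ℕ) : ℤ)] i * ((![P, Q, R] i).card : ℤ) =
      ((60 / P.card : ℕ) : ℤ) * (P.card : ℤ) + ((60 / Q.card : ℕ) : ℤ) * (Q.card : ℤ) +
      ((60 / R.card : ℕ) : ℤ) * (R.card : ℤ) := by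
      simp [Fin.sum_univ_three]
    rw [e, key _ p3 p6, key _ q3 q6, key _ r3 r6]
    norm_num
  have hfin : ∑ S ∈ A.erase ∅, ∑ i : Fin 3,
      ![((60 / P.card : ℕ) : ℤ), ((60 / Q.card : ℕ) : ℤ), ((60 / R.card : ℕ) : ℤ)] i *
        (2 * ((S ∩ ![P, Q, R] i).card : ℤ) - ((![P, Q, R] i).card : ℤ)) =
      ∑ S ∈ (A.erase ∅).filter (fun S => P ⊆ S), GK Q.card R.card (S ∩ Q).card (S ∩ R).card +
        ∑ S ∈ (A.erase ∅).filter (fun S => Q ⊆ S), GK P.card R.card (S ∩ P).card (S ∩ R).card +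
        ∑ S ∈ (A.erase ∅).filter (fun S => R ⊆ S), GK P.card Q.card (S ∩ P).card (S ∩ Q).card := by
    rw [sum_filter, sum_filter, sum_filter, ← sum_add_distrib, ← sum_add_distrib]
    apply sum_congr rfl
    intro S hS
    rw [mem_erase] at hS
    have ha : (S ∩ P).card ≤ P.card := card_le_card inter_subset_right
    have hb : (S ∩ Q).card ≤ Q.card := card_le_card inter_subset_right
    have hc : (S ∩ R).card ≤ R.card := card_le_card inter_subset_right
    have h1 := split_three ⟨P.card, by omega⟩ ⟨Q.card, by omega⟩ ⟨R.card, by omega⟩ p3 q3 r3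
      ⟨(S ∩ P).card, by omega⟩ ⟨(S ∩ Q).card, by omega⟩ ⟨(S ∩ R).card, by omega⟩ ha hb hc
      (by
        rcases hmin S hS.2 (nonempty_iff_ne_empty.2 hS.1) with h | h | h
        · left; exact Fin.ext (sub_iff_card.1 h)
        · right; left; exact Fin.ext (sub_iff_card.1 h)
        · right; right; exact Fin.ext (sub_iff_card.1 h))
    simp only [Fin.mk.injEq] at h1
    simp only [sub_iff_card]
    rw [h1]
    simp [Fin.sum_univ_three]
  rw [hfin, hrhs] at hW
  by_cases hcov : ∀ S ∈ A, S ⊆ P ∪ Q ∪ R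
  · -- one fibre each
    have single : ∀ M P Q : Finset ℕ, M ∈ A.erase ∅ → Cl (A.erase ∅) P → Cl (A.erase ∅) Q →
        Disjoint P Q → Disjoint M P → Disjoint M Q →
        3 ≤ P.card → P.card ≤ 6 → 3 ≤ Q.card → Q.card ≤ 6 →
        (∀ S ∈ A, S ⊆ M ∪ P ∪ Q) →
        60 + ∑ S ∈ (A.erase ∅).filter (fun S => M ⊆ S),
            (if P ⊆ S ∧ ¬ Q ⊆ S then sg Q.card (S ∩ Q).card else 0)
          + ∑ S ∈ (A.erase ∅).filter (fun S => M ⊆ S),
            (if Q ⊆ S ∧ ¬ P ⊆ S then sg P.card (S ∩ P).card else 0)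
          - 20 * (((P.filter (fun z => ∃ S ∈ A, S ∩ P = {z})).card : ℤ) *
            (Q.filter (fun z => ∃ S ∈ A, S ∩ Q = {z})).card) ≤
        ∑ S ∈ (A.erase ∅).filter (fun S => M ⊆ S), GK P.card Q.card (S ∩ P).card (S ∩ Q).card := by
      intro M P Q hM clP clQ hPQ MP MQ p3 p6 q3 q6 hcov
      refine one_fibre (B := M) ⟨M, mem_filter.2 ⟨hM, subset_rfl⟩⟩ (hfC M P clP) (hfC M Q clQ) hPQ
        p3 p6 q3 q6 ?_ _ _ ?_ ?_
      · intro S hS
        rw [mem_filter, mem_erase] at hS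
        ext z
        have a1 : z ∈ S → z ∈ M ∪ P ∪ Q := fun hz => hcov S hS.1.2 hz
        have a2 : z ∈ M → z ∈ S := fun hz => hS.2 hz
        have a3 : z ∈ M → z ∉ P := fun hz => disjoint_left.1 MP hz
        have a4 : z ∈ M → z ∉ Q := fun hz => disjoint_left.1 MQ hz
        simp only [mem_sdiff, mem_union] at a1 ⊢
        tauto
      · intro S hS z hz
        rw [mem_filter, mem_erase] at hS
        rw [mem_filter]
        refine ⟨?_, S, hS.1.2, hz⟩
        have : z ∈ S ∩ P := by rw [hz]; simp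
        exact (mem_inter.1 this).2
      · intro S hS z hz
        rw [mem_filter, mem_erase] at hS
        rw [mem_filter]
        refine ⟨?_, S, hS.1.2, hz⟩
        have : z ∈ S ∩ Q := by rw [hz]; simp
        exact (mem_inter.1 this).2
    have hXm : ∀ M : Finset ℕ, ∀ z, z ∈ M.filter (fun z => ∃ S ∈ A, S ∩ M = {z}) ↔
        z ∈ M ∧ ∃ S ∈ A, S ∩ M = {z} := fun M z => mem_filter
    have hc2 : ∀ S ∈ A, S ⊆ Q ∪ P ∪ R := by
      intro S hS
      rw [union_comm Q P]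
      exact hcov S hS
    have hc3 : ∀ S ∈ A, S ⊆ R ∪ P ∪ Q := by
      intro S hS
      refine (hcov S hS).trans ?_
      intro z hz
      simp only [mem_union] at hz ⊢
      tauto
    have hc4 : ∀ S ∈ A, S ⊆ P ∪ R ∪ Q := by
      intro S hS
      refine (hcov S hS).trans ?_
      intro z hz
      simp only [mem_union] at hz ⊢
      tauto
    have hc5 : ∀ S ∈ A, S ⊆ Q ∪ R ∪ P := by
      intro S hS
      refine (hcov S hS).trans ?_
      intro z hz
      simp only [mem_union] at hz ⊢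
      tauto
    have hc6 : ∀ S ∈ A, S ⊆ R ∪ Q ∪ P := by
      intro S hS
      refine (hcov S hS).trans ?_
      intro z hz
      simp only [mem_union] at hz ⊢
      tauto
    have s1 := single P Q R hP' clQ clR QR PQ PR q3 q6 r3 r6 hcov
    have s2 := single Q P R hQ' clP clR PR PQ.symm QR p3 p6 r3 r6 hc2
    have s3 := single R P Q hR' clP clQ PQ PR.symm QR.symm p3 p6 q3 q6 hc3
    have t1 := rows hU hsep hP hQ hR nP r3 r6 PR QR hcov _ (hXm R)
    have t2 := rows hU hsep hP hR hQ nP q3 q6 PQ QR.symm hc4 _ (hXm Q)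
    have t3 := rows hU hsep hQ hP hR nQ r3 r6 QR PR hc2 _ (hXm R)
    have t4 := rows hU hsep hQ hR hP nQ p3 p6 PQ.symm PR.symm hc5 _ (hXm P)
    have t5 := rows hU hsep hR hP hQ nR q3 q6 QR.symm PQ hc3 _ (hXm Q)
    have t6 := rows hU hsep hR hQ hP nR p3 p6 PR.symm PQ.symm hc6 _ (hXm P)
    have a1 := arith (Q.filter (fun z => ∃ S ∈ A, S ∩ Q = {z})).card
      (R.filter (fun z => ∃ S ∈ A, S ∩ R = {z})).card
    have a2 := arith (P.filter (fun z => ∃ S ∈ A, S ∩ P = {z})).card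
      (R.filter (fun z => ∃ S ∈ A, S ∩ R = {z})).card
    have a3 := arith (P.filter (fun z => ∃ S ∈ A, S ∩ P = {z})).card
      (Q.filter (fun z => ∃ S ∈ A, S ∩ Q = {z})).card
    linarith
  · push Not at hcov
    obtain ⟨S0, hS0, hS0c⟩ := hcov
    rw [not_subset] at hS0c
    obtain ⟨o, hoS, ho⟩ := hS0c
    simp only [mem_union, not_or] at ho
    obtain ⟨⟨oP, oQ⟩, oR⟩ := ho
    have double : ∀ M P Q : Finset ℕ, M ∈ A.erase ∅ → Cl (A.erase ∅) P → Cl (A.erase ∅) Q →
        Disjoint P Q → o ∉ M → o ∉ P → o ∉ Q →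
        3 ≤ P.card → P.card ≤ 6 → 3 ≤ Q.card → Q.card ≤ 6 →
        80 ≤ ∑ S ∈ (A.erase ∅).filter (fun S => M ⊆ S),
          GK P.card Q.card (S ∩ P).card (S ∩ Q).card := by
      intro M P Q hM clP clQ hPQ oM oP oQ p3 p6 q3 q6
      refine two_fibres (hfU M) (hfC M P clP) (hfC M Q clQ) hPQ p3 p6 q3 q6
        (S1 := M) (S2 := S0 ∪ M) (mem_filter.2 ⟨hM, subset_rfl⟩) ?_ ?_
      · rw [mem_filter]
        refine ⟨?_, subset_union_right⟩
        rw [mem_erase] at hM ⊢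
        refine ⟨?_, hU _ hS0 _ hM.2⟩
        intro he
        rw [union_eq_empty] at he
        exact hM.1 he.2
      · intro he
        have : o ∈ (S0 ∪ M) \ (P ∪ Q) := by
          simp only [mem_sdiff, mem_union]
          tauto
        rw [← he] at this
        exact oM (mem_sdiff.1 this).1
    have s1 := double P Q R hP' clQ clR QR oP oQ oR q3 q6 r3 r6
    have s2 := double Q P R hQ' clP clR PR oQ oP oR p3 p6 r3 r6
    have s3 := double R P Q hR' clP clQ PQ oR oP oQ p3 p6 q3 q6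
    linarith

end Pool.Agent.X73.UCP
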